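import Pool.Agent.H255R3.SN.Forms

/-!
# Adding a chain of powers to a bounded system
-/

set_option autoImplicit false

namespace Pool.Agent.NPC.ER.H255SN


/-- The length of the chain. -/
def chM (S : List Con) : ℕ := gapK (bsys S).length

/-- The system `bsys S` with a long chain of powers of `1/8`. -/
def qsys (S : List Con) : List Con :=
  bsys S ++ (List.range (chM S)).map (fun j => Con.mul (ev j) (ev j) (ev (j + 1)))

theorem con_vars_chain {j i : ℕ} (h : i ∈ (Con.mul (ev j) (ev j) (ev (j + 1))).vars) :
    i = ev j ∨ i = ev (j + 1) := by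
  simp [Con.vars] at h
  exact h

theorem svars_bsys {S : List Con} {i : ℕ} (h : i ∈ svars (bsys S)) (hi : i % 4 = 1) :
    i / 4 ≤ bK S := by
  unfold svars bsys at h
  simp only [List.flatMap_cons, List.flatMap_append, List.mem_append, List.mem_flatMap,
    List.mem_map, List.mem_range] at h
  rcases h with h | ⟨c, ⟨j, hj, rfl⟩, h⟩ | ⟨c, ⟨⟨c', t⟩, _, hc⟩, h⟩
  · simp [Con.vars, ev] at h
    omega
  · rcases con_vars_chain h with rfl | rfl
    · unfold ev; omega
    · unfold ev; omega
  · cases c' with
    | one k =>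
      simp only [bcon, List.mem_cons, List.not_mem_nil, or_false] at hc
      rcases hc with rfl | rfl <;> simp [Con.vars, ev] at h <;> omega
    | add a b k =>
      simp only [bcon, List.mem_cons, List.not_mem_nil, or_false] at hc
      rcases hc with rfl; simp [Con.vars] at h; omega
    | mul a b k =>
      simp only [bcon, List.mem_cons, List.not_mem_nil, or_false] at hc
      rcases hc with rfl | rfl <;> simp [Con.vars, ev] at h <;> omega

theorem holdsC_congr {κ : ℝ} {w w' : ℕ → ℝ} {c : Con} (h : ∀ i ∈ c.vars, w i = w' i) :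
    c.HoldsC κ w ↔ c.HoldsC κ w' := by
  cases c with
  | one i => simp only [Con.HoldsC]; rw [h i (by simp [Con.vars])]
  | add i j k =>
    simp only [Con.HoldsC]
    rw [h i (by simp [Con.vars]), h j (by simp [Con.vars]), h k (by simp [Con.vars])]
  | mul i j k =>
    simp only [Con.HoldsC]
    rw [h i (by simp [Con.vars]), h j (by simp [Con.vars]), h k (by simp [Con.vars])]

/-- A satisfiable system gives a small solution of the extended system, with a positive value at
the end of the chain. -/
theorem qsys_of_sat {S : List Con} (h : Sat S) :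
    ∃ w : ℕ → ℝ, (∀ i, |w i| ≤ 1 / 8) ∧ (∀ c ∈ qsys S, c.HoldsC (1 / 8) w) ∧
      ∀ j, 0 < w (ev j) := by
  obtain ⟨w, hw, hc⟩ := bsys_of_sat h
  have hev := ev_value hc
  let w' : ℕ → ℝ := fun i => if i % 4 = 1 then (1 / 8) ^ 2 ^ (i / 4) else w i
  have hw'e : ∀ j, w' (ev j) = (1 / 8) ^ 2 ^ j := by
    intro j
    simp only [w']
    rw [if_pos (by unfold ev; omega)]
    congr 2
    unfold ev; omega
  refine ⟨w', ?_, ?_, ?_⟩
  · intro i
    simp only [w']
    split_ifs with h1
    · rw [abs_of_pos (by positivity)]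
      calc ((1 : ℝ) / 8) ^ 2 ^ (i / 4) ≤ (1 / 8) ^ 1 :=
            pow_le_pow_of_le_one (by norm_num) (by norm_num) Nat.one_le_two_pow
        _ = 1 / 8 := pow_one _
    · exact hw i
  · intro c hcq
    unfold qsys at hcq
    rcases List.mem_append.1 hcq with h1 | h1
    · rw [← holdsC_congr (w := w) (w' := w')]
      · exact hc c h1
      · intro i hi
        simp only [w']
        split_ifs with h2
        · have h3 := svars_bsys (mem_svars h1 hi) h2
          have h4 := hev (i / 4) h3
          have h5 : ev (i / 4) = i := by unfold ev; omega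
          rw [h5] at h4
          exact h4
        · rfl
    · rw [List.mem_map] at h1
      obtain ⟨j, _, rfl⟩ := h1
      simp only [Con.HoldsC, hw'e, ← pow_add]
      congr 1
      ring
  · intro j
    rw [hw'e]
    positivity

/-- The chain lemma: approximate squares starting with `1/8` are doubly exponentially small if the
error is small relative to the last term. -/
theorem chain_small {M : ℕ} {a : ℕ → ℝ} (ha : ∀ j, 0 ≤ a j) (haM : a M ≤ 1)
    (h0 : 8 * a 0 ≤ 1 + a M / 50) (hs : ∀ j < M, a (j + 1) ≤ a j ^ 2 + a M / 50) :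
    a M * 2 ^ 2 ^ M ≤ 1 := by
  have hup : ∀ j ≤ M, a j ≤ 0.13 := by
    intro j
    induction j with
    | zero => intro _; nlinarith
    | succ j ih =>
      intro hj
      have h1 := ih (by omega)
      have h2 := hs j (by omega)
      have h3 := ha j
      nlinarith
  have hdown : ∀ k j, j + k = M → a M ≤ a j := by
    intro k
    induction k with
    | zero => intro j hj; simp at hj; rw [hj]
    | succ k ih =>
      intro j hj
      have h1 := ih (j + 1) (by omega)
      have h2 := hs j (by omega)
      have h3 := hup j (by omega)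
      have h4 := ha j
      have h5 := ha (j + 1)
      have h6 : a j ^ 2 ≤ 0.13 * a j := by nlinarith
      nlinarith
  have hstep : ∀ j < M, 2 * a (j + 1) ≤ (2 * a j) ^ 2 := by
    intro j hj
    have h1 := hdown (M - (j + 1)) (j + 1) (by omega)
    have h2 := hs j hj
    have h4 := ha j
    nlinarith
  have hfin : ∀ j ≤ M, 2 * a j ≤ (1 / 2) ^ 2 ^ j := by
    intro j
    induction j with
    | zero =>
      intro _
      have := hup 0 (by omega)
      norm_num at this ⊢
      linarith
    | succ j ih =>
      intro hj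
      have h1 := ih (by omega)
      have h2 := hstep j (by omega)
      have h3 := ha j
      calc 2 * a (j + 1) ≤ (2 * a j) ^ 2 := h2
        _ ≤ ((1 / 2) ^ 2 ^ j) ^ 2 := pow_le_pow_left₀ (by linarith) h1 2
        _ = _ := by rw [← pow_mul, pow_succ]
  have h1 := hfin M le_rfl
  have h2 : ((1 : ℝ) / 2) ^ 2 ^ M * 2 ^ 2 ^ M = 1 := by
    rw [← mul_pow]; norm_num
  have h3 : (0 : ℝ) < 2 ^ 2 ^ M := by positivity
  have h4 := ha M
  calc a M * 2 ^ 2 ^ M ≤ (2 * a M) * 2 ^ 2 ^ M := by nlinarith
    _ ≤ (1 / 2) ^ 2 ^ M * 2 ^ 2 ^ M := mul_le_mul_of_nonneg_right h1 h3.le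
    _ = 1 := h2

/-- An approximate solution of the extended system in the unit cube, with errors at most a
fiftieth of the last term of the chain, shows that the system is satisfiable. -/
theorem sat_of_approx {S : List Con} {w : ℕ → ℝ} (hw : ∀ i ∈ svars (qsys S), |w i| ≤ 1)
    (h : ∀ c ∈ qsys S, |c.err w| ≤ |w (ev (chM S))| / 50) : Sat S := by
  have hone : Con.one (ev 0) ∈ bsys S := by simp [bsys]
  have hmem1 : ∀ c ∈ bsys S, c ∈ qsys S := fun c hc => List.mem_append_left _ hc
  have hmem2 : ∀ j < chM S, Con.mul (ev j) (ev j) (ev (j + 1)) ∈ qsys S := fun j hj =>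
    List.mem_append_right _ (List.mem_map.2 ⟨j, List.mem_range.2 hj, rfl⟩)
  have hM : |w (ev (chM S))| ≤ 1 := by
    apply hw
    have h0 : chM S = (chM S - 1) + 1 := by unfold chM gapK; omega
    have h1 := hmem2 (chM S - 1) (by omega)
    refine mem_svars h1 ?_
    rw [← h0]
    simp [Con.vars]
  have hchain := chain_small (M := chM S) (a := fun j => |w (ev j)|) (fun j => abs_nonneg _) hM ?_ ?_
  · obtain ⟨w', hw'⟩ := holds_of_approx (S := bsys S) (w := w)
      (fun i hi => hw i (by
        unfold svars at hi ⊢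
        rw [List.mem_flatMap] at hi ⊢
        obtain ⟨c, hc, hi⟩ := hi
        exact ⟨c, hmem1 c hc, hi⟩)) (fun c hc => by
        have h1 := h c (hmem1 c hc)
        have h2 : (0 : ℝ) < 2 ^ 2 ^ gapK (bsys S).length := by positivity
        have h3 : |w (ev (chM S))| * 2 ^ 2 ^ gapK (bsys S).length ≤ 1 := hchain
        have h4 := mul_le_mul_of_nonneg_right h1 h2.le
        have h5 := abs_nonneg (w (ev (chM S)))
        nlinarith)
    exact sat_of_bsys hw'
  · have h1 := h _ (hmem1 _ hone)
    simp only [Con.err] at h1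
    have h2 : |8 * w (ev 0)| ≤ 1 + |w (ev (chM S))| / 50 := by
      calc |8 * w (ev 0)| = |(8 * w (ev 0) - 1) + 1| := by ring_nf
        _ ≤ |8 * w (ev 0) - 1| + |(1 : ℝ)| := abs_add_le _ _
        _ ≤ _ := by rw [abs_one]; linarith
    rw [abs_mul] at h2
    simpa using h2
  · intro j hj
    have h1 := h _ (hmem2 j hj)
    simp only [Con.err] at h1
    calc |w (ev (j + 1))| = |w (ev j) * w (ev j) - (w (ev j) * w (ev j) - w (ev (j + 1)))| := by
          ring_nf
      _ ≤ |w (ev j) * w (ev j)| + |w (ev j) * w (ev j) - w (ev (j + 1))| := abs_sub _ _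
      _ ≤ _ := by rw [abs_mul, sq]; linarith

end Pool.Agent.NPC.ER.H255SN
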