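import Pool.Agent.ER.GapSys

/-!
# Sums of squares of bilinear forms from systems of constraints

From a system `Q` of constraints `8 xᵢ = 1`, `xᵢ + xⱼ = xₖ`, `xᵢ * xⱼ = xₖ` and a variable `m` we
compute a list of bilinear forms `B` with integer coefficients and integers `g`, `σ` such that
`∑ B(x, y)² > σ² |x|² |y|²` if and only if
`(x_m y_0)² > g² (|x|² |y|² - ⟨x, y⟩²) + 2 ∑ F(x, y)²`, where the forms `F` are
(multiples of) bilinear versions of the homogenized constraints.
-/

set_option autoImplicit false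

namespace Pool.Agent.NPC.ER.H255SN

open Finset

/-- A monomial `a * x_i * y_j` with an integer coefficient. -/
abbrev Atom := ℤ × ℕ × ℕ

/-- The value of a monomial. -/
def aval (x y : ℕ → ℝ) (e : Atom) : ℝ := (e.1 : ℝ) * (x e.2.1 * y e.2.2)

/-- The value of a bilinear form, given as a list of monomials. -/
def fval (x y : ℕ → ℝ) (F : List Atom) : ℝ := (F.map (aval x y)).sum

/-- The sum of the squares of the values. -/
def sqs (x y : ℕ → ℝ) (B : List (List Atom)) : ℝ := (B.map (fun F => fval x y F ^ 2)).sum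

theorem fval_nil (x y : ℕ → ℝ) : fval x y [] = 0 := rfl

theorem fval_cons (x y : ℕ → ℝ) (e : Atom) (F : List Atom) :
    fval x y (e :: F) = aval x y e + fval x y F := by simp [fval]

theorem sqs_nil (x y : ℕ → ℝ) : sqs x y [] = 0 := rfl

theorem sqs_cons (x y : ℕ → ℝ) (F : List Atom) (B : List (List Atom)) :
    sqs x y (F :: B) = fval x y F ^ 2 + sqs x y B := by simp [sqs]

theorem sqs_append (x y : ℕ → ℝ) (B B' : List (List Atom)) :
    sqs x y (B ++ B') = sqs x y B + sqs x y B' := by simp [sqs]

theorem sqs_flatMap {ι : Type} (x y : ℕ → ℝ) (l : List ι) (f : ι → List (List Atom)) :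
    sqs x y (l.flatMap f) = (l.map (fun i => sqs x y (f i))).sum := by
  induction l with
  | nil => simp [sqs]
  | cons a l ih => simp [sqs_append, ih]

theorem sqs_nonneg (x y : ℕ → ℝ) (B : List (List Atom)) : 0 ≤ sqs x y B := by
  induction B with
  | nil => simp [sqs]
  | cons F B ih => rw [sqs_cons]; positivity

/-- All pairs of numbers less than `N`. -/
def grid (N : ℕ) : List (ℕ × ℕ) :=
  (List.range N).flatMap (fun i => (List.range N).map (fun j => (i, j)))

theorem mem_grid {N : ℕ} {p : ℕ × ℕ} : p ∈ grid N ↔ p.1 < N ∧ p.2 < N := by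
  simp only [grid, List.mem_flatMap, List.mem_range, List.mem_map]
  constructor
  · rintro ⟨i, hi, j, hj, rfl⟩
    exact ⟨hi, hj⟩
  · rintro ⟨h1, h2⟩
    exact ⟨p.1, h1, p.2, h2, rfl⟩

/-- The square of the norm of the first `N` coordinates. -/
def nsq (N : ℕ) (x : ℕ → ℝ) : ℝ := ∑ i ∈ range N, x i ^ 2

/-- The inner product of the first `N` coordinates. -/
def dot (N : ℕ) (x y : ℕ → ℝ) : ℝ := ∑ i ∈ range N, x i * y i

theorem sum_list_range (N : ℕ) (f : ℕ → ℝ) : ((List.range N).map f).sum = ∑ i ∈ range N, f i := by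
  induction N with
  | zero => simp
  | succ N ih => rw [List.range_succ, List.map_append, List.sum_append, ih, sum_range_succ]; simp

theorem sum_grid (N : ℕ) (f : ℕ × ℕ → ℝ) :
    ((grid N).map f).sum = ∑ i ∈ range N, ∑ j ∈ range N, f (i, j) := by
  unfold grid
  have : ∀ l : List ℕ, ((l.flatMap (fun i => (List.range N).map (fun j => (i, j)))).map f).sum =
      (l.map (fun i => ∑ j ∈ range N, f (i, j))).sum := by
    intro l
    induction l with
    | nil => simp
    | cons a l ih =>
      simp only [List.flatMap_cons, List.map_append, List.sum_append, ih, List.map_map,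
        List.map_cons, List.sum_cons]
      rw [← sum_list_range]
      rfl
  rw [this, sum_list_range]

theorem sum_grid_sq (N : ℕ) (x y : ℕ → ℝ) :
    ((grid N).map (fun p => (x p.1 * y p.2) ^ 2)).sum = nsq N x * nsq N y := by
  rw [sum_grid]
  simp only [nsq, sum_mul_sum, mul_pow]

/-- The monomials at all places except one. -/
def others (N : ℕ) (e : Atom) : List (List Atom) :=
  ((grid N).filter (fun p => !decide (p = e.2))).map (fun p => [(e.1, p)])

theorem sum_filter_ne (l : List (ℕ × ℕ)) (hl : l.Nodup) (q : ℕ × ℕ) (hq : q ∈ l)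
    (f : ℕ × ℕ → ℝ) : ((l.filter (fun p => !decide (p = q))).map f).sum = (l.map f).sum - f q := by
  induction l with
  | nil => simp at hq
  | cons a l ih =>
    rw [List.nodup_cons] at hl
    by_cases h : a = q
    · subst h
      have : l.filter (fun p => !decide (p = a)) = l := by
        rw [List.filter_eq_self]
        intro b hb
        simp only [Bool.not_eq_eq_eq_not, Bool.not_true, decide_eq_false_iff_not]
        rintro rfl
        exact hl.1 hb
      simp [List.filter_cons, this]
    · have hq' : q ∈ l := by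
        rcases List.mem_cons.1 hq with h1 | h1
        · exact absurd h1.symm h
        · exact h1
      have := ih hl.2 hq'
      simp only [List.filter_cons, h, decide_false, Bool.not_false, if_true, List.map_cons,
        List.sum_cons, this]
      ring

theorem nodup_grid (N : ℕ) : (grid N).Nodup := by
  unfold grid
  rw [List.nodup_flatMap]
  constructor
  · intro i _
    exact (List.nodup_range).map (fun a b h => by simpa using h)
  · refine List.Pairwise.imp (R := fun a b => a ≠ b) ?_ List.nodup_range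
    intro a b hab
    rw [Function.onFun, List.disjoint_left]
    intro p hp hp'
    rw [List.mem_map] at hp hp'
    obtain ⟨j, _, rfl⟩ := hp
    obtain ⟨j', _, h⟩ := hp'
    exact hab (by simpa using (congrArg Prod.fst h).symm)

theorem sqs_others (N : ℕ) (e : Atom) (h1 : e.2.1 < N) (h2 : e.2.2 < N) (x y : ℕ → ℝ) :
    sqs x y (others N e) = (e.1 : ℝ) ^ 2 * (nsq N x * nsq N y) - aval x y e ^ 2 := by
  have h : sqs x y (others N e) = (e.1 : ℝ) ^ 2 *
      (((grid N).filter (fun p => !decide (p = e.2))).map (fun p => (x p.1 * y p.2) ^ 2)).sum := by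
    unfold sqs others
    rw [List.map_map, ← List.sum_map_mul_left]
    congr 1
    apply List.map_congr_left
    intro p _
    simp only [Function.comp_apply, fval, List.map_cons, List.map_nil, List.sum_cons,
      List.sum_nil, add_zero, aval]
    ring
  rw [h, sum_filter_ne _ (nodup_grid N) _ (mem_grid.2 ⟨h1, h2⟩), sum_grid_sq]
  simp only [aval]
  ring

/-- The forms attached to a pair of monomials. -/
def pairForms (N : ℕ) (p : Atom × Atom) : List (List Atom) :=
  [p.1, (-p.2.1, p.2.2)] :: (others N p.1 ++ others N p.2)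

theorem sqs_pairForms (N : ℕ) (p : Atom × Atom) (h1 : p.1.2.1 < N) (h2 : p.1.2.2 < N)
    (h3 : p.2.2.1 < N) (h4 : p.2.2.2 < N) (x y : ℕ → ℝ) :
    sqs x y (pairForms N p) = ((p.1.1 : ℝ) ^ 2 + (p.2.1 : ℝ) ^ 2) * (nsq N x * nsq N y) -
      2 * (aval x y p.1 * aval x y p.2) := by
  unfold pairForms
  rw [sqs_cons, sqs_append, sqs_others N p.1 h1 h2, sqs_others N p.2 h3 h4]
  simp only [fval_cons, fval_nil]
  have : aval x y (-p.2.1, p.2.2) = - aval x y p.2 := by simp [aval]
  rw [this]
  ring

/-- All pairs of elements of a list. -/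
def allPairs (F : List Atom) : List (Atom × Atom) := F.flatMap (fun a => F.map (fun b => (a, b)))

theorem mem_allPairs {F : List Atom} {p : Atom × Atom} (h : p ∈ allPairs F) :
    p.1 ∈ F ∧ p.2 ∈ F := by
  simp only [allPairs, List.mem_flatMap, List.mem_map] at h
  obtain ⟨a, ha, b, hb, rfl⟩ := h
  exact ⟨ha, hb⟩

theorem sum_allPairs_mul (F : List Atom) (f : Atom → ℝ) :
    ((allPairs F).map (fun p => f p.1 * f p.2)).sum = (F.map f).sum ^ 2 := by
  have key : ∀ G : List Atom, ((G.flatMap (fun a => F.map (fun b => (a, b)))).map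
      (fun p => f p.1 * f p.2)).sum = (G.map f).sum * (F.map f).sum := by
    intro G
    induction G with
    | nil => simp
    | cons a G ih =>
      simp only [List.flatMap_cons, List.map_append, List.sum_append, ih, List.map_map,
        List.map_cons, List.sum_cons, add_mul]
      congr 1
      rw [← List.sum_map_mul_left]
      rfl
  rw [allPairs, key, sq]

/-- The weight of a form. -/
def wt (F : List Atom) : ℕ :=
  ((allPairs F).map (fun p => p.1.1.natAbs ^ 2 + p.2.1.natAbs ^ 2)).sum

/-- The forms whose squares sum to `wt F |x|² |y|² - 2 F(x, y)²`. -/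
def compl (N : ℕ) (F : List Atom) : List (List Atom) := (allPairs F).flatMap (pairForms N)

theorem sqs_compl (N : ℕ) (F : List Atom) (hF : ∀ e ∈ F, e.2.1 < N ∧ e.2.2 < N) (x y : ℕ → ℝ) :
    sqs x y (compl N F) = (wt F : ℝ) * (nsq N x * nsq N y) - 2 * fval x y F ^ 2 := by
  unfold compl fval
  rw [sqs_flatMap, ← sum_allPairs_mul]
  have hm : ∀ p ∈ allPairs F, sqs x y (pairForms N p) =
      ((p.1.1 : ℝ) ^ 2 + (p.2.1 : ℝ) ^ 2) * (nsq N x * nsq N y) -
      2 * (aval x y p.1 * aval x y p.2) := by
    intro p hp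
    obtain ⟨h1, h2⟩ := mem_allPairs hp
    exact sqs_pairForms N p (hF _ h1).1 (hF _ h1).2 (hF _ h2).1 (hF _ h2).2 x y
  rw [List.map_congr_left hm, wt]
  clear hm
  induction allPairs F with
  | nil => simp
  | cons p l ih =>
    simp only [List.map_cons, List.sum_cons, ih, Nat.cast_add, Nat.cast_pow, Nat.cast_natAbs,
      Int.cast_abs, sq_abs]
    ring

/-- The forms of a list of forms. -/
def complL (N : ℕ) (A : List (List Atom)) : List (List Atom) := A.flatMap (compl N)

/-- The weight of a list of forms. -/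
def wtL (A : List (List Atom)) : ℕ := (A.map wt).sum

theorem sqs_complL (N : ℕ) (A : List (List Atom)) (hA : ∀ F ∈ A, ∀ e ∈ F, e.2.1 < N ∧ e.2.2 < N)
    (x y : ℕ → ℝ) :
    sqs x y (complL N A) = (wtL A : ℝ) * (nsq N x * nsq N y) - 2 * sqs x y A := by
  induction A with
  | nil => simp [complL, wtL, sqs]
  | cons F A ih =>
    have h1 := ih fun F' h => hA F' (List.mem_cons_of_mem _ h)
    have h2 := sqs_compl N F (hA F List.mem_cons_self) x y
    have h3 : complL N (F :: A) = compl N F ++ complL N A := by simp [complL]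
    have h4 : wtL (F :: A) = wt F + wtL A := by simp [wtL]
    rw [h3, sqs_append, h1, h2, h4, sqs_cons]
    push_cast
    ring

/-- The inner product form, with a factor. -/
def dotForm (N : ℕ) (g : ℤ) : List Atom := (List.range N).map (fun i => (g, i, i))

theorem fval_dotForm (N : ℕ) (g : ℤ) (x y : ℕ → ℝ) : fval x y (dotForm N g) = g * dot N x y := by
  unfold fval dotForm dot
  rw [List.map_map, sum_list_range, mul_sum]
  rfl

/-- The complete list of forms. -/
def forms (N : ℕ) (A : List (List Atom)) (μ : ℕ) : List (List Atom) :=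
  [(1, μ, 0)] :: dotForm N ((wtL A / 4 : ℕ) - 1 : ℤ) :: complL N A

/-- The bound. -/
def bound (A : List (List Atom)) : ℕ := wtL A / 4 + 1

/-- The main equivalence. -/
theorem exceed_iff (N : ℕ) (A : List (List Atom)) (hA : ∀ F ∈ A, ∀ e ∈ F, e.2.1 < N ∧ e.2.2 < N)
    (hW : 4 ∣ wtL A) (μ : ℕ) (x y : ℕ → ℝ) :
    (bound A : ℝ) ^ 2 * (nsq N x * nsq N y) < sqs x y (forms N A μ) ↔
      ((wtL A : ℝ) / 4 - 1) ^ 2 * (nsq N x * nsq N y - dot N x y ^ 2) + 2 * sqs x y A <
        (x μ * y 0) ^ 2 := by
  obtain ⟨w, hw⟩ := hW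
  have h1 : wtL A / 4 = w := by omega
  unfold forms bound
  rw [sqs_cons, sqs_cons, sqs_complL N A hA, fval_dotForm, h1]
  have h2 : (wtL A : ℝ) = 4 * w := by exact_mod_cast hw
  rw [h2]
  have h3 : fval x y [((1 : ℤ), μ, 0)] = x μ * y 0 := by simp [fval, aval]
  rw [h3]
  push_cast
  have h4 : (4 * (w : ℝ) / 4) = w := by ring
  rw [h4]
  constructor
  · intro h; nlinarith
  · intro h; nlinarith

/-- The Lagrange identity. -/
theorem lagrange (N : ℕ) (x y : ℕ → ℝ) :
    ∑ i ∈ range N, ∑ j ∈ range N, (x i * y j - x j * y i) ^ 2 =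
      2 * (nsq N x * nsq N y - dot N x y ^ 2) := by
  have h1 : ∀ i j : ℕ, (x i * y j - x j * y i) ^ 2 =
      x i ^ 2 * y j ^ 2 + y i ^ 2 * x j ^ 2 - 2 * ((x i * y i) * (x j * y j)) := by
    intro i j; ring
  simp only [h1, sum_sub_distrib, sum_add_distrib, ← mul_sum, ← sum_mul]
  unfold nsq dot
  ring

theorem wedge_le (N : ℕ) (x y : ℕ → ℝ) {i j : ℕ} (hi : i < N) (hj : j < N) :
    (x i * y j - x j * y i) ^ 2 ≤ 2 * (nsq N x * nsq N y - dot N x y ^ 2) := by
  rw [← lagrange]
  have h1 : (x i * y j - x j * y i) ^ 2 ≤ ∑ j ∈ range N, (x i * y j - x j * y i) ^ 2 :=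
    single_le_sum (f := fun j => (x i * y j - x j * y i) ^ 2) (fun j _ => sq_nonneg _)
      (mem_range.2 hj)
  have h2 : ∑ j ∈ range N, (x i * y j - x j * y i) ^ 2 ≤
      ∑ i ∈ range N, ∑ j ∈ range N, (x i * y j - x j * y i) ^ 2 :=
    single_le_sum (f := fun i => ∑ j ∈ range N, (x i * y j - x j * y i) ^ 2)
      (fun i _ => sum_nonneg fun j _ => sq_nonneg _) (mem_range.2 hi)
  exact h1.trans h2

theorem mem_sqs_le {x y : ℕ → ℝ} {A : List (List Atom)} {F : List Atom} (h : F ∈ A) :
    fval x y F ^ 2 ≤ sqs x y A := by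
  induction A with
  | nil => simp at h
  | cons G A ih =>
    rw [sqs_cons]
    rcases List.mem_cons.1 h with rfl | h
    · have := sqs_nonneg x y A
      linarith
    · have := ih h
      have := sq_nonneg (fval x y G)
      linarith

end Pool.Agent.NPC.ER.H255SN
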