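import Pool.Agent.H255R3.SN.Poly
import Pool.Agent.ER.Dec

/-!
# The decision problems
-/

set_option autoImplicit false

namespace Pool.Agent.NPC.ER.H255SN

open Pool.Agent.NPC.H670R2 Finset

/-- The decision problem SPECTRAL-NORM-EXCEED: is the spectral norm of the given tensor larger than
the given number? -/
def SpectralNormExceed (p : Inst) : Prop := p.WF ∧ (p.2.2 : ℝ) < specNorm (tensorOf p.1 p.2.1)

/-- The decision problem SPECTRAL-NORM-BOUND: is the spectral norm of the given tensor at most the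
given number? -/
def SpectralNormBound (p : Inst) : Prop := p.WF ∧ specNorm (tensorOf p.1 p.2.1) ≤ (p.2.2 : ℝ)

/-! ### Correctness of the reduction -/

theorem forms_lt {N : ℕ} {A : List (List Atom)} (hA : ∀ F ∈ A, ∀ e ∈ F, e.2.1 < N ∧ e.2.2 < N)
    {μ : ℕ} (hμ : μ < N) : ∀ F ∈ forms N A μ, ∀ e ∈ F, e.2.1 < N ∧ e.2.2 < N := by
  intro F hF e he
  unfold forms at hF
  rw [List.mem_cons, List.mem_cons] at hF
  rcases hF with rfl | rfl | hF
  · simp only [List.mem_cons, List.not_mem_nil, or_false] at he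
    subst he
    exact ⟨hμ, by simp only; omega⟩
  · unfold dotForm at he
    rw [List.mem_map] at he
    obtain ⟨i, hi, rfl⟩ := he
    rw [List.mem_range] at hi
    exact ⟨hi, hi⟩
  · unfold complL compl at hF
    rw [List.mem_flatMap] at hF
    obtain ⟨G, hG, hF⟩ := hF
    rw [List.mem_flatMap] at hF
    obtain ⟨p, hp, hF⟩ := hF
    obtain ⟨h1, h2⟩ := mem_allPairs hp
    have ho : ∀ e' : Atom, F ∈ others N e' → e.2.1 < N ∧ e.2.2 < N := by
      intro e' h
      unfold others at h
      rw [List.mem_map] at h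
      obtain ⟨q, hq, rfl⟩ := h
      have hq' := mem_grid.1 (List.mem_of_mem_filter hq)
      simp only [List.mem_cons, List.not_mem_nil, or_false] at he
      subst he
      exact hq'
    unfold pairForms at hF
    rw [List.mem_cons, List.mem_append] at hF
    rcases hF with rfl | hF | hF
    · simp only [List.mem_cons, List.not_mem_nil, or_false] at he
      rcases he with rfl | rfl
      · exact hA G hG _ h1
      · have h3 := hA G hG _ h2
        exact ⟨h3.1, h3.2⟩
    · exact ho _ hF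
    · exact ho _ hF

theorem bforms_lt (S : List Con) : ∀ F ∈ bforms S, ∀ e ∈ F, e.2.1 < bdim S ∧ e.2.2 < bdim S := by
  apply forms_lt (allF_lt _)
  unfold ix dimN
  have := List.idxOf_lt_length_of_mem (lastV_mem S)
  omega

theorem bdim_pos (S : List Con) : 1 ≤ bdim S := by unfold bdim dimN; omega

theorem tinst_wf (S : List Con) : (tinst S).WF :=
  instOf_wf ((bdim_pos S).trans (by unfold tdim; omega)) _ (by unfold bbound bound; omega)

theorem exceeds_instOf (d : ℕ) (B : List (List Atom)) (s : ℕ) : SpectralNormExceed (instOf d B s) ↔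
    (instOf d B s).WF ∧ (s : ℝ) < specNorm (tensorOf d (tens d B)) := by
  unfold SpectralNormExceed
  have h : (((instOf d B s).2.2 : ℚ) : ℝ) = (s : ℝ) := by simp [instOf]
  rw [h]
  rfl

theorem sat_iff (S : List Con) : Sat S ↔ SpectralNormExceed (tinst S) := by
  have h1 := sat_iff_exceed S
  have hN : bdim S ≤ tdim S := by unfold tdim; omega
  have h2 := exceed_of_forms (N := bdim S) (d := tdim S) (B := bforms S) (s := bbound S)
    ((bdim_pos S).trans hN) hN
    (fun F hF e he => ⟨(bforms_lt S F hF e he).1.trans_le hN, (bforms_lt S F hF e he).2.trans_le hN⟩)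
    (by unfold tdim; omega)
  have h3 : SpectralNormExceed (tinst S) ↔ (tinst S).WF ∧
      (bbound S : ℝ) < specNorm (tensorOf (tdim S) (tens (tdim S) (bforms S))) :=
    exceeds_instOf (tdim S) (bforms S) (bbound S)
  rw [h3]
  constructor
  · intro h
    refine ⟨tinst_wf S, ?_⟩
    obtain ⟨x, hx0, hx, h4⟩ := h1.1 h
    refine h2.2 ⟨x, ?_, hx, h4⟩
    exact nsq_pos (i := 0) (bdim_pos S) (by rw [hx0]; norm_num)
  · rintro ⟨-, h⟩
    exact h1.2 (h2.1 h)

theorem exceeds_hard : ERHard (lang SpectralNormExceed) :=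
  ERHard.of_sys (f := tinst) (poly_tinst Poly.id) sat_iff

/-! ### Membership -/

/-- The list of the entries of a tensor. -/
def entries (T : List (List (List ℚ))) : List (ℚ × ℕ × ℕ × ℕ) :=
  T.zipIdx.flatMap fun p => p.1.zipIdx.flatMap fun r => r.1.zipIdx.map fun q =>
    (q.1, p.2, r.2, q.2)

theorem sum_zipIdx {β : Type} (l : List β) (f : β → ℕ → ℝ) (b : β) (n : ℕ) :
    ((l.zipIdx n).map (fun p => f p.1 p.2)).sum = ∑ i ∈ range l.length, f (l.getD i b) (n + i) := by
  induction l generalizing n with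
  | nil => simp
  | cons a l ih =>
    rw [List.zipIdx_cons, List.map_cons, List.sum_cons, ih, List.length_cons, sum_range_succ']
    simp only [List.getD_cons_succ, List.getD_cons_zero, add_zero]
    rw [add_comm]
    congr 1
    exact sum_congr rfl fun i _ => by congr 1; ring

theorem sum_flatMap_real {β γ : Type} (l : List β) (F : β → List γ) (g : γ → ℝ) :
    ((l.flatMap F).map g).sum = (l.map (fun b => ((F b).map g).sum)).sum := by
  induction l with
  | nil => simp
  | cons b l ih => simp [ih]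

theorem sum_entries (T : List (List (List ℚ))) (g : ℚ → ℕ → ℕ → ℕ → ℝ) :
    ((entries T).map (fun e => g e.1 e.2.1 e.2.2.1 e.2.2.2)).sum =
      ∑ i ∈ range T.length, ∑ j ∈ range (T.getD i []).length,
        ∑ k ∈ range ((T.getD i []).getD j []).length,
          g (((T.getD i []).getD j []).getD k 0) i j k := by
  unfold entries
  rw [sum_flatMap_real]
  rw [sum_zipIdx T (fun A i => ((A.zipIdx.flatMap fun r => r.1.zipIdx.map fun q =>
    (q.1, i, r.2, q.2)).map (fun e => g e.1 e.2.1 e.2.2.1 e.2.2.2)).sum) [] 0]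
  refine sum_congr rfl fun i _ => ?_
  rw [sum_flatMap_real, zero_add]
  rw [sum_zipIdx _ (fun r j => ((r.zipIdx.map fun q =>
    (q.1, i, j, q.2)).map (fun e : ℚ × ℕ × ℕ × ℕ => g e.1 e.2.1 e.2.2.1 e.2.2.2)).sum) [] 0]
  refine sum_congr rfl fun j _ => ?_
  rw [List.map_map, zero_add]
  have := sum_zipIdx ((T.getD i []).getD j []) (fun q k => g q i j k) 0 0
  simp only [zero_add] at this
  rw [← this]
  rfl

/-- The sphere formula. -/
def sphereF (n r : ℕ) : Fm :=
  Fm.eq (sumTm ((List.range n).map fun i => Tm.mul (Tm.var (4 * i + r)) (Tm.var (4 * i + r)))) Tm.one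

/-- The formulas for the coefficients. -/
def coefFs (T : List (List (List ℚ))) : List Fm :=
  (entries T).zipIdx.map fun p => eqRat (Tm.var (4 * p.2 + 3)) p.1.1

/-- The term for the value of the trilinear form. -/
def triTm (T : List (List (List ℚ))) : Tm :=
  sumTm ((entries T).zipIdx.map fun p => Tm.mul (Tm.var (4 * p.2 + 3))
    (Tm.mul (Tm.var (4 * p.1.2.1 + 0)) (Tm.mul (Tm.var (4 * p.1.2.2.1 + 1))
      (Tm.var (4 * p.1.2.2.2 + 2)))))

/-- The formula of a well-formed instance. -/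
def memF (p : Inst) : Fm :=
  Fm.and (Fm.and (Fm.and (sphereF p.2.1.length 0) (sphereF p.2.1.length 1))
    (Fm.and (sphereF p.2.1.length 2) (conj (coefFs p.2.1))))
    (Fm.or (Fm.lt (intTm p.2.2.num) (Tm.mul (natTm p.2.2.den) (triTm p.2.1)))
      (Fm.lt (intTm p.2.2.num) (Tm.mul (natTm p.2.2.den) (Tm.neg (triTm p.2.1)))))

theorem sphereF_holds (x : ℕ → ℝ) (n r : ℕ) :
    (sphereF n r).Holds x ↔ ∑ i : Fin n, x (4 * i + r) ^ 2 = 1 := by
  unfold sphereF
  simp only [Fm.Holds, eval_sumTm, Tm.eval, List.map_map]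
  rw [sum_list_range n]
  rw [Fin.sum_univ_eq_sum_range (fun i => x (4 * i + r) ^ 2) n]
  have : ∀ i, (Tm.eval x ∘ fun i => Tm.mul (Tm.var (4 * i + r)) (Tm.var (4 * i + r))) i =
      x (4 * i + r) ^ 2 := fun i => by simp [Tm.eval, sq]
  simp only [this]

theorem lt_rat_iff (q : ℚ) (t : ℝ) : (q.num : ℝ) < (q.den : ℝ) * t ↔ (q : ℝ) < t := by
  have h : (0 : ℝ) < q.den := by exact_mod_cast q.den_pos
  have h2 : (q : ℝ) = q.num / q.den := by exact_mod_cast (Rat.num_div_den q).symm
  rw [h2, div_lt_iff₀ h, mul_comm]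

theorem zipIdx_map_fst {β γ : Type} (l : List β) (f : β → γ) (n : ℕ) :
    (l.zipIdx n).map (fun p => f p.1) = l.map f := by
  induction l generalizing n with
  | nil => rfl
  | cons a l ih => rw [List.zipIdx_cons, List.map_cons, ih, List.map_cons]

theorem triTm_eval {d : ℕ} {T : List (List (List ℚ))} (h1 : T.length = d)
    (h2 : ∀ A ∈ T, A.length = d ∧ ∀ r ∈ A, r.length = d) {x : ℕ → ℝ}
    (hx : ∀ f ∈ coefFs T, f.Holds x) (X Y Z : EuclideanSpace ℝ (Fin d))
    (hX : ∀ i : Fin d, x (4 * i + 0) = X i) (hY : ∀ i : Fin d, x (4 * i + 1) = Y i)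
    (hZ : ∀ i : Fin d, x (4 * i + 2) = Z i) :
    (triTm T).eval x = tri (tensorOf d T) X Y Z := by
  have h3 : (triTm T).eval x = ((entries T).map (fun e => (fun (q : ℚ) (i j k : ℕ) => (q : ℝ) *
      (x (4 * i + 0) * (x (4 * j + 1) * x (4 * k + 2)))) e.1 e.2.1 e.2.2.1 e.2.2.2)).sum := by
    unfold triTm
    rw [eval_sumTm, List.map_map, ← zipIdx_map_fst (entries T) _ 0]
    congr 1
    apply List.map_congr_left
    intro p hp
    simp only [Function.comp_apply, Tm.eval]
    have := hx (eqRat (Tm.var (4 * p.2 + 3)) p.1.1) (List.mem_map.2 ⟨p, hp, rfl⟩)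
    rw [holds_eqRat] at this
    simp only [Tm.eval] at this
    rw [this]
  have hrow : ∀ i < d, (T.getD i []).length = d := by
    intro i hi
    rw [List.getD_eq_getElem _ _ (by omega)]
    exact (h2 _ (List.getElem_mem _)).1
  have hrow2 : ∀ i < d, ∀ j < d, ((T.getD i []).getD j []).length = d := by
    intro i hi j hj
    have h4 := hrow i hi
    rw [List.getD_eq_getElem (T.getD i []) _ (by omega)]
    have h5 : T.getD i [] ∈ T := by
      rw [List.getD_eq_getElem _ _ (by omega)]
      exact List.getElem_mem _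
    exact (h2 _ h5).2 _ (List.getElem_mem _)
  have h4 := sum_entries T (fun (q : ℚ) (i j k : ℕ) => (q : ℝ) *
      (x (4 * i + 0) * (x (4 * j + 1) * x (4 * k + 2))))
  rw [h3, h4, h1]
  unfold tri
  rw [← Fin.sum_univ_eq_sum_range (fun i => ∑ j ∈ range (T.getD i []).length,
        ∑ k ∈ range ((T.getD i []).getD j []).length,
          ((((T.getD i []).getD j []).getD k 0 : ℚ) : ℝ) *
            (x (4 * i + 0) * (x (4 * j + 1) * x (4 * k + 2)))) d]
  refine sum_congr rfl fun i _ => ?_
  rw [hrow i i.2]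
  rw [← Fin.sum_univ_eq_sum_range (fun j =>
        ∑ k ∈ range ((T.getD i []).getD j []).length,
          ((((T.getD i []).getD j []).getD k 0 : ℚ) : ℝ) *
            (x (4 * i + 0) * (x (4 * j + 1) * x (4 * k + 2)))) d]
  refine sum_congr rfl fun j _ => ?_
  rw [hrow2 i i.2 j j.2]
  rw [← Fin.sum_univ_eq_sum_range (fun k =>
          ((((T.getD i []).getD j []).getD k 0 : ℚ) : ℝ) *
            (x (4 * i + 0) * (x (4 * j + 1) * x (4 * k + 2)))) d]
  refine sum_congr rfl fun k _ => ?_
  rw [hX, hY, hZ]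
  unfold tensorOf
  ring

theorem memF_etr {p : Inst} (hp : p.WF) : SpectralNormExceed p ↔ ETR (memF p) := by
  obtain ⟨d, T, s⟩ := p
  obtain ⟨hd, h1, h2, hs⟩ := hp
  simp only at hd h1 h2 hs
  have hkey := lt_specNorm_iff (d := d) hd (tensorOf d T) (s : ℝ)
  have hnorm : ∀ x : EuclideanSpace ℝ (Fin d), ‖x‖ = 1 ↔ ∑ i, x i ^ 2 = 1 := by
    intro x
    rw [← EuclideanSpace.real_norm_sq_eq]
    constructor
    · intro h; rw [h]; norm_num
    · intro h
      have := norm_nonneg x
      nlinarith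
  have hfin : ∀ x : ℕ → ℝ, (memF (d, T, s)).Holds x ↔ ((∑ i : Fin d, x (4 * i + 0) ^ 2 = 1 ∧
      ∑ i : Fin d, x (4 * i + 1) ^ 2 = 1) ∧ (∑ i : Fin d, x (4 * i + 2) ^ 2 = 1 ∧
      ∀ f ∈ coefFs T, f.Holds x)) ∧ ((s : ℝ) < (triTm T).eval x ∨
        (s : ℝ) < - (triTm T).eval x) := by
    intro x
    subst h1
    unfold memF
    simp only [Fm.Holds, sphereF_holds, holds_conj, eval_intTm, Tm.eval, eval_natTm, lt_rat_iff]
  constructor
  · rintro ⟨-, h⟩
    obtain ⟨X, Y, Z, hX, hY, hZ, h3⟩ := hkey.1 h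
    let x : ℕ → ℝ := fun n => if n % 4 = 0 then extz X (n / 4) else
      if n % 4 = 1 then extz Y (n / 4) else if n % 4 = 2 then extz Z (n / 4) else
        ((((entries T).getD (n / 4) (0, 0, 0, 0)).1 : ℚ) : ℝ)
    have hx0 : ∀ i : Fin d, x (4 * i + 0) = X i := fun i => by
      simp only [x]
      rw [if_pos (by omega), show (4 * (i : ℕ) + 0) / 4 = i by omega, extz_coe]
    have hx1 : ∀ i : Fin d, x (4 * i + 1) = Y i := fun i => by
      simp only [x]
      rw [if_neg (by omega), if_pos (by omega), show (4 * (i : ℕ) + 1) / 4 = i by omega, extz_coe]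
    have hx2 : ∀ i : Fin d, x (4 * i + 2) = Z i := fun i => by
      simp only [x]
      rw [if_neg (by omega), if_neg (by omega), if_pos (by omega),
        show (4 * (i : ℕ) + 2) / 4 = i by omega, extz_coe]
    have hx3 : ∀ n : ℕ, x (4 * n + 3) = ((((entries T).getD n (0, 0, 0, 0)).1 : ℚ) : ℝ) := fun n => by
      simp only [x]
      rw [if_neg (by omega), if_neg (by omega), if_neg (by omega),
        show (4 * n + 3) / 4 = n by omega]
    have hc : ∀ f ∈ coefFs T, f.Holds x := by
      intro f hf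
      unfold coefFs at hf
      rw [List.mem_map] at hf
      obtain ⟨q, hq, rfl⟩ := hf
      rw [holds_eqRat]
      simp only [Tm.eval]
      rw [hx3]
      rw [List.mem_zipIdx_iff_getElem?] at hq
      rw [List.getD_eq_getElem?_getD, hq]
      rfl
    refine ⟨x, (hfin x).2 ⟨⟨⟨?_, ?_⟩, ?_, hc⟩, ?_⟩⟩
    · simp only [hx0]; exact (hnorm X).1 hX
    · simp only [hx1]; exact (hnorm Y).1 hY
    · simp only [hx2]; exact (hnorm Z).1 hZ
    · rw [triTm_eval h1 h2 hc X Y Z hx0 hx1 hx2]
      exact lt_abs.1 h3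
  · rintro ⟨x, hx⟩
    obtain ⟨⟨⟨h3, h4⟩, h5, hc⟩, h6⟩ := (hfin x).1 hx
    refine ⟨⟨hd, h1, h2, hs⟩, hkey.2 ⟨WithLp.toLp 2 (fun i : Fin d => x (4 * i + 0)),
      WithLp.toLp 2 (fun i : Fin d => x (4 * i + 1)), WithLp.toLp 2 (fun i : Fin d => x (4 * i + 2)),
      (hnorm _).2 h3, (hnorm _).2 h4, (hnorm _).2 h5, ?_⟩⟩
    rw [← triTm_eval h1 h2 hc _ _ _ (fun _ => rfl) (fun _ => rfl) (fun _ => rfl)]
    exact lt_abs.2 h6

/-- The test of well-formedness. -/
def wfb (p : Inst) : Bool :=
  decide (1 ≤ p.1) && decide (p.2.1.length = p.1) &&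
    (p.2.1.all fun A => decide (A.length = p.1) && A.all fun r => decide (r.length = p.1)) &&
    decide (¬ p.2.2.num < 0 ∧ ¬ p.2.2.num.natAbs = 0)

theorem wfb_iff (p : Inst) : wfb p = true ↔ p.WF := by
  unfold wfb Inst.WF
  simp only [Bool.and_eq_true, decide_eq_true_eq, List.all_eq_true]
  have h : (¬ p.2.2.num < 0 ∧ ¬ p.2.2.num.natAbs = 0) ↔ 0 < p.2.2 := by
    rw [← Rat.num_pos]
    omega
  rw [h]
  tauto

section

variable {α : Type} [TEnc α]

theorem poly_wfb {p : α → Inst} (hp : Poly p) : Poly (fun a => wfb (p a)) := by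
  have h1 := Poly.fst hp
  have h2 := Poly.fst (Poly.snd hp)
  have h3 := poly_ratNum (Poly.snd (Poly.snd hp))
  refine Poly.and (Poly.and (Poly.and (Poly.decide_le (Poly.const 1) h1)
    (Poly.decide_eq (Poly.length h2) h1)) ?_) ?_
  · refine Poly.all (p := fun a A => decide (A.length = (p a).1) &&
      A.all fun r => decide (r.length = (p a).1)) h2 ?_
    refine Poly.and (Poly.decide_eq (Poly.length (Poly.snd Poly.id)) (h1.comp (Poly.fst Poly.id))) ?_
    refine Poly.all (p := fun (q : α × List (List ℚ)) (r : List ℚ) =>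
      decide (r.length = (p q.1).1)) (Poly.snd Poly.id) ?_
    exact Poly.decide_eq (Poly.length (Poly.snd Poly.id)) (h1.comp (Poly.fst (Poly.fst Poly.id)))
  · exact Poly.decide_and (Poly.decide_not (poly_isNeg h3))
      (Poly.decide_not (Poly.decide_eq (poly_natAbs h3) (Poly.const 0)))

theorem poly_entries {T : α → List (List (List ℚ))} (hT : Poly T) :
    Poly (fun a => entries (T a)) := by
  unfold entries
  refine Poly.flatMap (F := fun _ (p : List (List ℚ) × ℕ) => p.1.zipIdx.flatMap fun r =>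
    r.1.zipIdx.map fun q => (q.1, p.2, r.2, q.2)) (Poly.zipIdx hT) ?_
  refine Poly.flatMap (F := fun (p : α × (List (List ℚ) × ℕ)) (r : List ℚ × ℕ) =>
    r.1.zipIdx.map fun q => (q.1, p.2.2, r.2, q.2)) (Poly.zipIdx (Poly.fst (Poly.snd Poly.id))) ?_
  refine Poly.map (F := fun (p : (α × (List (List ℚ) × ℕ)) × (List ℚ × ℕ)) (q : ℚ × ℕ) =>
    (q.1, p.1.2.2, p.2.2, q.2)) (Poly.zipIdx (Poly.fst (Poly.snd Poly.id))) ?_
  exact Poly.pair (Poly.fst (Poly.snd Poly.id)) (Poly.pair
    (Poly.snd (Poly.snd (Poly.fst (Poly.fst Poly.id)))) (Poly.pair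
      (Poly.snd (Poly.snd (Poly.fst Poly.id))) (Poly.snd (Poly.snd Poly.id))))

theorem poly_v {n : α → ℕ} (hn : Poly n) (r : ℕ) : Poly (fun a => Tm.var (4 * n a + r)) :=
  poly_tvar (Poly.add (Poly.mul (Poly.const 4) hn) (Poly.const r))

theorem poly_sphereF {T : α → List (List (List ℚ))} (hT : Poly T) (r : ℕ) :
    Poly (fun a => sphereF (T a).length r) :=
  poly_eq (poly_sumTm (Poly.map (F := fun _ i => Tm.mul (Tm.var (4 * i + r)) (Tm.var (4 * i + r)))
    (Poly.range_length hT) (poly_tmul (poly_v (Poly.snd Poly.id) r) (poly_v (Poly.snd Poly.id) r))))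
    (Poly.const _)

theorem poly_coefFs {T : α → List (List (List ℚ))} (hT : Poly T) :
    Poly (fun a => coefFs (T a)) :=
  Poly.map (F := fun _ (p : (ℚ × ℕ × ℕ × ℕ) × ℕ) => eqRat (Tm.var (4 * p.2 + 3)) p.1.1)
    (Poly.zipIdx (poly_entries hT)) (poly_eqRat (poly_v (Poly.snd (Poly.snd Poly.id)) 3)
      (Poly.fst (Poly.fst (Poly.snd Poly.id))))

theorem poly_triTm {T : α → List (List (List ℚ))} (hT : Poly T) :
    Poly (fun a => triTm (T a)) := by
  have he : Poly (fun p : α × ((ℚ × ℕ × ℕ × ℕ) × ℕ) => p.2) := Poly.snd Poly.id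
  refine poly_sumTm (Poly.map (F := fun _ (p : (ℚ × ℕ × ℕ × ℕ) × ℕ) =>
    Tm.mul (Tm.var (4 * p.2 + 3)) (Tm.mul (Tm.var (4 * p.1.2.1 + 0))
      (Tm.mul (Tm.var (4 * p.1.2.2.1 + 1)) (Tm.var (4 * p.1.2.2.2 + 2)))))
    (Poly.zipIdx (poly_entries hT)) ?_)
  exact poly_tmul (poly_v (Poly.snd he) 3) (poly_tmul (poly_v (Poly.fst (Poly.snd (Poly.fst he))) 0)
    (poly_tmul (poly_v (Poly.fst (Poly.snd (Poly.snd (Poly.fst he)))) 1)
      (poly_v (Poly.snd (Poly.snd (Poly.snd (Poly.fst he)))) 2)))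

theorem poly_memF {p : α → Inst} (hp : Poly p) : Poly (fun a => memF (p a)) := by
  have h2 := Poly.fst (Poly.snd hp)
  have h3 := Poly.snd (Poly.snd hp)
  have hn := poly_intTm (poly_ratNum h3)
  have hdn := poly_natTm (poly_ratDen h3)
  exact H670R2.poly_and (H670R2.poly_and (H670R2.poly_and (poly_sphereF h2 0) (poly_sphereF h2 1))
    (H670R2.poly_and (poly_sphereF h2 2) (poly_conj (poly_coefFs h2))))
    (poly_or (poly_lt hn (poly_tmul hdn (poly_triTm h2)))
      (poly_lt hn (poly_tmul hdn (poly_tneg (poly_triTm h2)))))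

end

theorem not_ETR_ff' : ¬ ETR H670R2.ff := fun ⟨x, hx⟩ => holds_ff x hx

theorem exceeds_mem : InER (lang SpectralNormExceed) := by
  have hF : Poly (fun p : Inst => if wfb p = true then memF p else H670R2.ff) :=
    Poly.ite (p := fun p : Inst => wfb p = true) (Poly.decide_bool (poly_wfb Poly.id))
      (poly_memF Poly.id) (Poly.const H670R2.ff)
  refine ER.InER.of_poly hF fun p => ?_
  by_cases h : wfb p = true
  · rw [if_pos h]
    exact memF_etr ((wfb_iff p).1 h)
  · rw [if_neg h]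
    exact ⟨fun h' => absurd ((wfb_iff p).2 h'.1) h, fun h' => absurd h' not_ETR_ff'⟩

/-! ### The class `∀ℝ` -/

/-- The class `∀ℝ`: the languages whose complement is in `∃ℝ`. -/
def InAR (L : Set (List Bool)) : Prop := InER Lᶜ

/-- `∀ℝ`-completeness under polynomial-time many-one reductions. -/
def ARComplete (L : Set (List Bool)) : Prop := InAR L ∧ ∀ L', InAR L' → Reduces L' L

theorem bound_mem : InAR (lang SpectralNormBound) := by
  have hF : Poly (fun w : List Bool => match unbits Inst w with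
      | none => H670R2.tt
      | some p => if wfb p = true then memF p else H670R2.tt) := by
    refine (Poly.optCases (o := fun w : List Bool => unbits Inst w) (g := fun _ => H670R2.tt)
      (h := fun _ p => if wfb p = true then memF p else H670R2.tt) poly_unbits (Poly.const _)
      ?_).congr fun w => ?_
    · exact Poly.ite (p := fun p : List Bool × Inst => wfb p.2 = true)
        (Poly.decide_bool (poly_wfb (Poly.snd Poly.id)))
        (poly_memF (Poly.snd Poly.id)) (Poly.const H670R2.tt)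
    · cases unbits Inst w <;> rfl
  refine ⟨_, polyTime_bits hF, fun w => ?_⟩
  have htt : ETR H670R2.tt := ⟨fun _ => 0, holds_tt _⟩
  cases h : unbits Inst w with
  | none =>
    simp only
    refine ⟨fun _ => htt, fun _ hw => ?_⟩
    obtain ⟨p, hp, _⟩ := hw
    rw [← hp, unbits_bits] at h
    cases h
  | some p =>
    have hb := bits_of_unbits h
    simp only
    have hw : w ∈ (lang SpectralNormBound)ᶜ ↔ ¬ SpectralNormBound p := by
      rw [Set.mem_compl_iff, ← hb, bits_mem_lang]
    rw [hw]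
    by_cases h1 : wfb p = true
    · rw [if_pos h1, ← memF_etr ((wfb_iff p).1 h1)]
      unfold SpectralNormBound SpectralNormExceed
      have := (wfb_iff p).1 h1
      simp [this]
    · rw [if_neg h1]
      exact ⟨fun _ => htt, fun _ h' => h1 ((wfb_iff p).2 h'.1)⟩

theorem bound_hard : ∀ L', InAR L' → Reduces L' (lang SpectralNormBound) := by
  rintro L' ⟨g, hg, hL⟩
  have h1 : PC (id : List Bool → List Bool) (bits : Fm → List Bool) g :=
    H642R2.TMSim.polyTime_toPC hg
  have h2 : Poly (fun φ : Fm => tinst (sysOf φ)) := poly_tinst (poly_sysOf Poly.id)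
  have h3 : PC (id : List Bool → List Bool) (bits : Inst → List Bool)
      (fun x => tinst (sysOf (g x))) :=
    PC.comp (g := fun φ : Fm => tinst (sysOf φ)) (eb := (bits : Fm → List Bool)) h2 h1
  have h4 : PC (id : List Bool → List Bool) (id : List Bool → List Bool)
    (fun x => bits (tinst (sysOf (g x)))) := h3
  refine ⟨fun x => bits (tinst (sysOf (g x))), PC.toPolyTime h4, fun x => ?_⟩
  rw [bits_mem_lang]
  have h5 := hL x
  rw [Set.mem_compl_iff, ← sat_sysOf, sat_iff] at h5
  have h6 := tinst_wf (sysOf (g x))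
  have h7 : SpectralNormBound (tinst (sysOf (g x))) ↔
      ¬ SpectralNormExceed (tinst (sysOf (g x))) := by
    generalize tinst (sysOf (g x)) = p at h6
    unfold SpectralNormBound SpectralNormExceed
    simp [h6]
  rw [h7, ← h5, not_not]

end Pool.Agent.NPC.ER.H255SN
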