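import Pool.Agent.H255R3.SN.Tensor
import Pool.Agent.ER.Hard
import Pool.Agent.ER.Build
import Pool.Agent.ER.Rat

/-!
# Computing the tensor of a system in polynomial time
-/

set_option autoImplicit false

namespace Pool.Agent.NPC.ER.H255SN

open Pool.Agent.NPC.H670R2

section

variable {α β : Type} [TEnc α] [TEnc β]

theorem poly_idxOf [DecidableEq β] {l : α → List β} {b : α → β} (hl : Poly l) (hb : Poly b) :
    Poly (fun a => (l a).idxOf (b a)) := by
  obtain ⟨r, hr⟩ := hl.sz_le
  have key : ∀ (b : β) (l : List β),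
      l.foldr (fun x acc => if x = b then 0 else acc + 1) 0 = l.idxOf b := by
    intro b l
    induction l with
    | nil => rfl
    | cons x l ih =>
      rw [List.foldr_cons, ih, List.idxOf_cons]
      by_cases h : x = b
      · simp [h]
      · have h' : (x == b) = false := by simpa using h
        simp [h, h']
  refine (Poly.foldr (l := l) (s := fun _ => 0)
    (F := fun a x acc => if x = b a then 0 else acc + 1) hl (Poly.const _)
    (Poly.ite (Poly.decide_eq (Poly.fst (Poly.snd Poly.id)) (hb.comp (Poly.fst Poly.id)))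
      (Poly.const 0) (Poly.succ (Poly.snd (Poly.snd Poly.id))))
      (Polynomial.C 4 * r + Polynomial.C 1) ?_).congr
    fun a => key (b a) (l a)
  intro a k _
  rw [key]
  have h1 := List.idxOf_le_length (l := (l a).drop k) (a := b a)
  have h2 := sz_nat_le (((l a).drop k).idxOf (b a))
  have h3 := Poly.size_le_self (((l a).drop k).idxOf (b a))
  have h4 := length_lt_sz (l a)
  have h5 := hr a
  simp only [List.length_drop] at h1
  simp only [Polynomial.eval_add, Polynomial.eval_mul, Polynomial.eval_C]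
  omega

/-- Difference of two natural numbers as an integer. -/
theorem poly_int_sub {m n : α → ℕ} (hm : Poly m) (hn : Poly n) :
    Poly (fun a => ((m a : ℤ) - (n a : ℤ))) := by
  have h1 : Poly (fun a => (decide (m a < n a), (m a - n a) + (n a - m a))) :=
    Poly.pair (Poly.decide_lt hm hn) (Poly.add (Poly.sub hm hn) (Poly.sub hn hm))
  refine Poly.of_toT (Poly.congr h1.toT' fun a => ?_)
  have e : toT ((m a : ℤ) - (n a : ℤ)) =
      toT (decide ((m a : ℤ) - (n a : ℤ) < 0), ((m a : ℤ) - (n a : ℤ)).natAbs) := rfl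
  rw [e]
  congr 2
  · by_cases h : m a < n a
    · have : (m a : ℤ) - (n a : ℤ) < 0 := by omega
      simp [h, this]
    · have : ¬ (m a : ℤ) - (n a : ℤ) < 0 := by omega
      simp [h, this]
  · omega

/-- The opposite of an integer. -/
theorem poly_int_neg {z : α → ℤ} (hz : Poly z) : Poly (fun a => - z a) := by
  have h1 : Poly (fun a => (decide (¬ z a < 0 ∧ ¬ (z a).natAbs = 0), (z a).natAbs)) :=
    Poly.pair (Poly.decide_and (Poly.decide_not (poly_isNeg hz))
      (Poly.decide_not (Poly.decide_eq (poly_natAbs hz) (Poly.const 0)))) (poly_natAbs hz)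
  refine Poly.of_toT (Poly.congr h1.toT' fun a => ?_)
  have e : toT (- z a) = toT (decide (- z a < 0), (- z a).natAbs) := rfl
  rw [e, Int.natAbs_neg]
  congr 2
  rw [decide_eq_decide]
  omega

/-- An integer as a rational number. -/
theorem poly_ratCast {z : α → ℤ} (hz : Poly z) : Poly (fun a => ((z a : ℤ) : ℚ)) := by
  have h1 : Poly (fun a => ((z a, 1) : ℤ × ℕ)) := Poly.pair hz (Poly.const 1)
  refine Poly.of_toT (Poly.congr h1.toT' fun a => ?_)
  rfl

theorem poly_vars {c : α → Con} (hc : Poly c) : Poly (fun a => (c a).vars) := by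
  have hc' : Poly (fun a => (c a).code) := hc
  have h1 := Poly.fst hc'
  have h2 := Poly.fst (Poly.snd hc')
  have h3 := Poly.fst (Poly.snd (Poly.snd hc'))
  have h4 := Poly.snd (Poly.snd (Poly.snd hc'))
  have h : Poly (fun a => if (c a).code.1 = 0 then [(c a).code.2.1]
      else [(c a).code.2.1, (c a).code.2.2.1, (c a).code.2.2.2]) :=
    Poly.ite (Poly.decide_eq h1 (Poly.const 0)) (Poly.cons h2 (Poly.const []))
      (Poly.cons h2 (Poly.cons h3 (Poly.cons h4 (Poly.const []))))
  exact h.congr fun a => by cases c a <;> simp [Con.code, Con.vars]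

theorem poly_svars {S : α → List Con} (hS : Poly S) : Poly (fun a => svars (S a)) :=
  Poly.flatMap (F := fun _ c => Con.vars c) hS (poly_vars (Poly.snd Poly.id))

/-- A monomial. -/
theorem poly_atom {z : α → ℤ} {i j : α → ℕ} (hz : Poly z) (hi : Poly i) (hj : Poly j) :
    Poly (fun a => ((z a, i a, j a) : Atom)) := Poly.pair hz (Poly.pair hi hj)

theorem poly_ix {V : α → List ℕ} {i : α → ℕ} (hV : Poly V) (hi : Poly i) :
    Poly (fun a => ix (V a) (i a)) := Poly.add (Poly.const 1) (poly_idxOf hV hi)

theorem poly_cform {V : α → List ℕ} {c : α → Con} (hV : Poly V) (hc : Poly c) :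
    Poly (fun a => cform (V a) (c a)) := by
  have hc' : Poly (fun a => (c a).code) := hc
  have h1 := Poly.fst hc'
  have h2 := poly_ix hV (Poly.fst (Poly.snd hc'))
  have h3 := poly_ix hV (Poly.fst (Poly.snd (Poly.snd hc')))
  have h4 := poly_ix hV (Poly.snd (Poly.snd (Poly.snd hc')))
  have z : Poly (fun _ : α => 0) := Poly.const 0
  have h : Poly (fun a => if (c a).code.1 = 0 then
      ([((800 : ℤ), ix (V a) (c a).code.2.1, 0), ((-100 : ℤ), 0, 0)] : List Atom)
      else if (c a).code.1 = 1 then
      ([((100 : ℤ), ix (V a) (c a).code.2.1, 0), ((100 : ℤ), ix (V a) (c a).code.2.2.1, 0),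
        ((-100 : ℤ), ix (V a) (c a).code.2.2.2, 0)] : List Atom)
      else ([((100 : ℤ), ix (V a) (c a).code.2.1, ix (V a) (c a).code.2.2.1),
        ((-100 : ℤ), ix (V a) (c a).code.2.2.2, 0)] : List Atom)) :=
    Poly.ite (Poly.decide_eq h1 (Poly.const 0))
      (Poly.cons (poly_atom (Poly.const _) h2 z) (Poly.cons (poly_atom (Poly.const _) z z)
        (Poly.const [])))
      (Poly.ite (Poly.decide_eq h1 (Poly.const 1))
        (Poly.cons (poly_atom (Poly.const _) h2 z) (Poly.cons (poly_atom (Poly.const _) h3 z)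
          (Poly.cons (poly_atom (Poly.const _) h4 z) (Poly.const []))))
        (Poly.cons (poly_atom (Poly.const _) h2 h3) (Poly.cons (poly_atom (Poly.const _) h4 z)
          (Poly.const []))))
  exact h.congr fun a => by cases c a <;> rfl

theorem poly_sform {L p : α → ℕ} (hL : Poly L) (hp : Poly p) :
    Poly (fun a => sform (L a) (p a)) := by
  have h1 : Poly (fun a => 1 + p a) := Poly.add (Poly.const 1) hp
  have h2 : Poly (fun a => 1 + L a + p a) := Poly.add (Poly.add (Poly.const 1) hL) hp
  exact Poly.cons (poly_atom (Poly.const _) h1 h1) (Poly.cons (poly_atom (Poly.const _) h2 h2)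
    (Poly.cons (poly_atom (Poly.const _) (Poly.const 0) (Poly.const 0)) (Poly.const [])))

theorem poly_allF {Q : α → List Con} (hQ : Poly Q) : Poly (fun a => allF (Q a)) := by
  have hV := poly_svars hQ
  refine Poly.append ?_ ?_
  · exact Poly.map (F := fun a c => cform (svars (Q a)) c) hQ
      (poly_cform (hV.comp (Poly.fst Poly.id)) (Poly.snd Poly.id))
  · exact Poly.map (F := fun a p => sform (svars (Q a)).length p) (Poly.range_length hV)
      (poly_sform ((Poly.length hV).comp (Poly.fst Poly.id)) (Poly.snd Poly.id))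

theorem upoly_dimN {Q : α → List Con} (hQ : Poly Q) : UPoly (fun a => dimN (Q a)) :=
  UPoly.add (UPoly.const 1) (UPoly.mul (UPoly.const 2) (UPoly.length (poly_svars hQ)))

theorem poly_grid {N : α → ℕ} (hN : UPoly N) : Poly (fun a => grid (N a)) := by
  unfold grid
  refine Poly.flatMap (F := fun a i => (List.range (N a)).map (fun j => (i, j))) hN.range ?_
  refine Poly.map (F := fun (p : α × ℕ) j => (p.2, j)) (hN.range.comp (Poly.fst Poly.id)) ?_
  exact Poly.pair (Poly.snd (Poly.fst Poly.id)) (Poly.snd Poly.id)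

theorem poly_others {N : α → ℕ} {e : α → Atom} (hN : UPoly N) (he : Poly e) :
    Poly (fun a => others (N a) (e a)) := by
  unfold others
  refine Poly.map (F := fun a p => [((e a).1, p)]) ?_ ?_
  · refine Poly.filter (p := fun a p => !decide (p = (e a).2)) (poly_grid hN) ?_
    exact Poly.not (Poly.decide_eq (Poly.snd Poly.id) (Poly.snd (he.comp (Poly.fst Poly.id))))
  · exact Poly.cons (Poly.pair (Poly.fst (he.comp (Poly.fst Poly.id))) (Poly.snd Poly.id))
      (Poly.const [])

theorem poly_pairForms {N : α → ℕ} {p : α → Atom × Atom} (hN : UPoly N) (hp : Poly p) :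
    Poly (fun a => pairForms (N a) (p a)) := by
  unfold pairForms
  refine Poly.cons ?_ (Poly.append (poly_others hN (Poly.fst hp)) (poly_others hN (Poly.snd hp)))
  exact Poly.cons (Poly.fst hp) (Poly.cons (Poly.pair (poly_int_neg (Poly.fst (Poly.snd hp)))
    (Poly.snd (Poly.snd hp))) (Poly.const []))

theorem poly_allPairs {F : α → List Atom} (hF : Poly F) : Poly (fun a => allPairs (F a)) := by
  unfold allPairs
  refine Poly.flatMap (F := fun a x => (F a).map (fun b => (x, b))) hF ?_
  refine Poly.map (F := fun (p : α × Atom) b => (p.2, b)) (hF.comp (Poly.fst Poly.id)) ?_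
  exact Poly.pair (Poly.snd (Poly.fst Poly.id)) (Poly.snd Poly.id)

theorem poly_sq {n : α → ℕ} (hn : Poly n) : Poly (fun a => n a ^ 2) :=
  (Poly.mul hn hn).congr fun a => (sq _).symm

theorem poly_wt {F : α → List Atom} (hF : Poly F) : Poly (fun a => wt (F a)) := by
  unfold wt
  refine Poly.sum (Poly.map (F := fun _ (p : Atom × Atom) => p.1.1.natAbs ^ 2 + p.2.1.natAbs ^ 2)
    (poly_allPairs hF) ?_)
  exact Poly.add (poly_sq (poly_natAbs (Poly.fst (Poly.fst (Poly.snd Poly.id)))))
    (poly_sq (poly_natAbs (Poly.fst (Poly.snd (Poly.snd Poly.id)))))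

theorem poly_wtL {A : α → List (List Atom)} (hA : Poly A) : Poly (fun a => wtL (A a)) :=
  Poly.sum (Poly.map (F := fun _ F => wt F) hA (poly_wt (Poly.snd Poly.id)))

theorem poly_compl {N : α → ℕ} {F : α → List Atom} (hN : UPoly N) (hF : Poly F) :
    Poly (fun a => compl (N a) (F a)) :=
  Poly.flatMap (F := fun a p => pairForms (N a) p) (poly_allPairs hF)
    (poly_pairForms (hN.comp (Poly.fst Poly.id)) (Poly.snd Poly.id))

theorem poly_complL {N : α → ℕ} {A : α → List (List Atom)} (hN : UPoly N) (hA : Poly A) :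
    Poly (fun a => complL (N a) (A a)) :=
  Poly.flatMap (F := fun a F => compl (N a) F) hA
    (poly_compl (hN.comp (Poly.fst Poly.id)) (Poly.snd Poly.id))

theorem poly_dotForm {N : α → ℕ} {g : α → ℤ} (hN : UPoly N) (hg : Poly g) :
    Poly (fun a => dotForm (N a) (g a)) :=
  Poly.map (F := fun a i => ((g a, i, i) : Atom)) hN.range
    (poly_atom (hg.comp (Poly.fst Poly.id)) (Poly.snd Poly.id) (Poly.snd Poly.id))

theorem poly_forms {N μ : α → ℕ} {A : α → List (List Atom)} (hN : UPoly N) (hA : Poly A)
    (hμ : Poly μ) : Poly (fun a => forms (N a) (A a) (μ a)) := by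
  have hg : Poly (fun a => ((wtL (A a) / 4 : ℕ) : ℤ) - ((1 : ℕ) : ℤ)) :=
    poly_int_sub (Poly.div (poly_wtL hA) (Poly.const 4)) (Poly.const 1)
  exact Poly.cons (Poly.cons (poly_atom (Poly.const 1) hμ (Poly.const 0)) (Poly.const []))
    (Poly.cons (poly_dotForm hN hg) (poly_complL hN hA))

theorem poly_bound {A : α → List (List Atom)} (hA : Poly A) : Poly (fun a => bound (A a)) :=
  Poly.succ (Poly.div (poly_wtL hA) (Poly.const 4))

theorem poly_qsys {S : α → List Con} (hS : Poly S) : Poly (fun a => qsys (S a)) := by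
  have h1 := poly_bsys hS
  have hM : UPoly (fun a => chM (S a)) :=
    UPoly.add (UPoly.mul (UPoly.const 11) (UPoly.length h1)) (UPoly.const 7)
  refine Poly.append h1 (Poly.map (F := fun _ j => Con.mul (ev j) (ev j) (ev (j + 1))) hM.range ?_)
  exact poly_con_mul (poly_ev (Poly.snd Poly.id)) (poly_ev (Poly.snd Poly.id))
    (poly_ev (Poly.succ (Poly.snd Poly.id)))

theorem poly_lastV {S : α → List Con} (hS : Poly S) : Poly (fun a => lastV (S a)) := by
  have h1 := poly_bsys hS
  have hM : UPoly (fun a => chM (S a)) :=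
    UPoly.add (UPoly.mul (UPoly.const 11) (UPoly.length h1)) (UPoly.const 7)
  exact poly_ev hM.toPoly

theorem poly_bforms {S : α → List Con} (hS : Poly S) : Poly (fun a => bforms (S a)) :=
  poly_forms (upoly_dimN (poly_qsys hS)) (poly_allF (poly_qsys hS))
    (poly_ix (poly_svars (poly_qsys hS)) (poly_lastV hS))

theorem poly_bbound {S : α → List Con} (hS : Poly S) : Poly (fun a => bbound (S a)) :=
  poly_bound (poly_allF (poly_qsys hS))

theorem upoly_bdim {S : α → List Con} (hS : Poly S) : UPoly (fun a => bdim (S a)) :=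
  upoly_dimN (poly_qsys hS)

theorem poly_posS {F : α → List Atom} {i j : α → ℕ} (hF : Poly F) (hi : Poly i) (hj : Poly j) :
    Poly (fun a => posS (F a) (i a) (j a)) := by
  refine Poly.sum (Poly.map (F := fun a (e : Atom) => if e.2 = (i a, j a) ∧ ¬ e.1 < 0 then
    e.1.natAbs else 0) hF ?_)
  have he : Poly (fun p : α × Atom => p.2) := Poly.snd Poly.id
  exact Poly.ite (Poly.decide_and (Poly.decide_eq (Poly.snd he)
    (Poly.pair (hi.comp (Poly.fst Poly.id)) (hj.comp (Poly.fst Poly.id))))
    (Poly.decide_not (poly_isNeg (Poly.fst he)))) (poly_natAbs (Poly.fst he)) (Poly.const 0)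

theorem poly_negS {F : α → List Atom} {i j : α → ℕ} (hF : Poly F) (hi : Poly i) (hj : Poly j) :
    Poly (fun a => negS (F a) (i a) (j a)) := by
  refine Poly.sum (Poly.map (F := fun a (e : Atom) => if e.2 = (i a, j a) ∧ e.1 < 0 then
    e.1.natAbs else 0) hF ?_)
  have he : Poly (fun p : α × Atom => p.2) := Poly.snd Poly.id
  exact Poly.ite (Poly.decide_and (Poly.decide_eq (Poly.snd he)
    (Poly.pair (hi.comp (Poly.fst Poly.id)) (hj.comp (Poly.fst Poly.id))))
    (poly_isNeg (Poly.fst he))) (poly_natAbs (Poly.fst he)) (Poly.const 0)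

theorem poly_coef {F : α → List Atom} {i j : α → ℕ} (hF : Poly F) (hi : Poly i) (hj : Poly j) :
    Poly (fun a => coef (F a) (i a) (j a)) := poly_int_sub (poly_posS hF hi hj) (poly_negS hF hi hj)

theorem poly_tens {d : α → ℕ} {B : α → List (List Atom)} (hd : UPoly d) (hB : Poly B) :
    Poly (fun a => tens (d a) (B a)) := by
  unfold tens
  refine Poly.map (F := fun a k => (List.range (d a)).map fun i => (List.range (d a)).map fun j =>
    ((coef ((B a).getD k []) i j : ℤ) : ℚ)) hd.range ?_
  refine Poly.map (F := fun (p : α × ℕ) i => (List.range (d p.1)).map fun j =>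
    ((coef ((B p.1).getD p.2 []) i j : ℤ) : ℚ)) (hd.range.comp (Poly.fst Poly.id)) ?_
  refine Poly.map (F := fun (p : (α × ℕ) × ℕ) j =>
    ((coef ((B p.1.1).getD p.1.2 []) p.2 j : ℤ) : ℚ))
    (hd.range.comp (Poly.fst (Poly.fst Poly.id))) ?_
  refine poly_ratCast (poly_coef ?_ (Poly.snd (Poly.fst Poly.id)) (Poly.snd Poly.id))
  exact Poly.getD (hB.comp (Poly.fst (Poly.fst (Poly.fst Poly.id))))
    (Poly.snd (Poly.fst (Poly.fst Poly.id))) (Poly.const [])

/-- The dimension of the instance. -/
def tdim (S : List Con) : ℕ := bdim S + (bforms S).length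

/-- The instance. -/
def tinst (S : List Con) : Inst := instOf (tdim S) (bforms S) (bbound S)

theorem poly_tinst {S : α → List Con} (hS : Poly S) : Poly (fun a => tinst (S a)) := by
  have hd : UPoly (fun a => tdim (S a)) :=
    UPoly.add (upoly_bdim hS) (UPoly.length (poly_bforms hS))
  have hs : Poly (fun a => (((bbound (S a) : ℕ) : ℤ) - ((0 : ℕ) : ℤ))) :=
    poly_int_sub (poly_bbound hS) (Poly.const 0)
  have hs' : Poly (fun a => ((bbound (S a) : ℕ) : ℚ)) :=
    (poly_ratCast hs).congr fun a => by push_cast; ring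
  exact Poly.pair hd.toPoly (Poly.pair (poly_tens hd (poly_bforms hS)) hs')

end

end Pool.Agent.NPC.ER.H255SN
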