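import Pool.Agent.H255R3.SN.Chain

/-!
# The bilinear forms of a system
-/

set_option autoImplicit false

namespace Pool.Agent.NPC.ER.H255SN

open Finset

/-- The index of the coordinate of a variable. -/
def ix (V : List ℕ) (i : ℕ) : ℕ := 1 + V.idxOf i

/-- The bilinear form of a constraint. -/
def cform (V : List ℕ) : Con → List Atom
  | Con.one i => [(800, ix V i, 0), (-100, 0, 0)]
  | Con.add i j k => [(100, ix V i, 0), (100, ix V j, 0), (-100, ix V k, 0)]
  | Con.mul i j k => [(100, ix V i, ix V j), (-100, ix V k, 0)]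

/-- The bilinear form which bounds a coordinate. -/
def sform (L p : ℕ) : List Atom := [(200, 1 + p, 1 + p), (100, 1 + L + p, 1 + L + p), (-100, 0, 0)]

/-- All forms of a system. -/
def allF (Q : List Con) : List (List Atom) :=
  Q.map (cform (svars Q)) ++ (List.range (svars Q).length).map (sform (svars Q).length)

/-- The number of coordinates. -/
def dimN (Q : List Con) : ℕ := 1 + 2 * (svars Q).length

theorem ix_lt {Q : List Con} {c : Con} (hc : c ∈ Q) {i : ℕ} (hi : i ∈ c.vars) :
    ix (svars Q) i < 1 + (svars Q).length := by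
  unfold ix
  have := List.idxOf_lt_length_of_mem (mem_svars hc hi)
  omega

theorem allF_lt (Q : List Con) : ∀ F ∈ allF Q, ∀ e ∈ F, e.2.1 < dimN Q ∧ e.2.2 < dimN Q := by
  intro F hF e he
  unfold dimN
  rcases List.mem_append.1 hF with h | h
  · rw [List.mem_map] at h
    obtain ⟨c, hc, rfl⟩ := h
    have hlt : ∀ i ∈ c.vars, ix (svars Q) i < 1 + 2 * (svars Q).length := fun i hi => by
      have := ix_lt hc hi
      omega
    cases c with
    | one i =>
      have h1 := hlt i (by simp [Con.vars])
      simp only [cform, List.mem_cons, List.not_mem_nil, or_false] at he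
      rcases he with rfl | rfl <;> exact ⟨by first | exact h1 | (simp only; omega), by simp only; omega⟩
    | add i j k =>
      have h1 := hlt i (by simp [Con.vars])
      have h2 := hlt j (by simp [Con.vars])
      have h3 := hlt k (by simp [Con.vars])
      simp only [cform, List.mem_cons, List.not_mem_nil, or_false] at he
      rcases he with rfl | rfl | rfl
      · exact ⟨h1, by simp only; omega⟩
      · exact ⟨h2, by simp only; omega⟩
      · exact ⟨h3, by simp only; omega⟩
    | mul i j k =>
      have h1 := hlt i (by simp [Con.vars])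
      have h2 := hlt j (by simp [Con.vars])
      have h3 := hlt k (by simp [Con.vars])
      simp only [cform, List.mem_cons, List.not_mem_nil, or_false] at he
      rcases he with rfl | rfl
      · exact ⟨h1, h2⟩
      · exact ⟨h3, by simp only; omega⟩
  · rw [List.mem_map] at h
    obtain ⟨p, hp, rfl⟩ := h
    rw [List.mem_range] at hp
    simp only [sform, List.mem_cons, List.not_mem_nil, or_false] at he
    rcases he with rfl | rfl | rfl <;> simp only <;> omega

theorem wt_cform (V : List ℕ) (c : Con) : 4 ∣ wt (cform V c) ∧ 40000 ≤ wt (cform V c) := by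
  cases c with
  | one i =>
    have h : wt (cform V (Con.one i)) = 2600000 := by
      unfold cform wt allPairs
      simp only [List.flatMap_cons, List.map_cons, List.map_nil, List.flatMap_nil,
        List.cons_append, List.nil_append, List.append_nil, List.sum_cons, List.sum_nil]
      norm_num
    rw [h]; norm_num
  | add i j k =>
    have h : wt (cform V (Con.add i j k)) = 180000 := by
      unfold cform wt allPairs
      simp only [List.flatMap_cons, List.map_cons, List.map_nil, List.flatMap_nil,
        List.cons_append, List.nil_append, List.append_nil, List.sum_cons, List.sum_nil]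
      norm_num
    rw [h]; norm_num
  | mul i j k =>
    have h : wt (cform V (Con.mul i j k)) = 80000 := by
      unfold cform wt allPairs
      simp only [List.flatMap_cons, List.map_cons, List.map_nil, List.flatMap_nil,
        List.cons_append, List.nil_append, List.append_nil, List.sum_cons, List.sum_nil]
      norm_num
    rw [h]; norm_num

theorem wt_sform (L p : ℕ) : 4 ∣ wt (sform L p) := by
  have h : wt (sform L p) = 360000 := by
    unfold sform wt allPairs
    simp only [List.flatMap_cons, List.map_cons, List.map_nil, List.flatMap_nil,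
      List.cons_append, List.nil_append, List.append_nil, List.sum_cons, List.sum_nil]
    norm_num
  rw [h]; norm_num

theorem dvd_wtL (Q : List Con) : 4 ∣ wtL (allF Q) := by
  unfold wtL allF
  rw [List.map_append, List.sum_append]
  apply Nat.dvd_add
  · apply List.dvd_sum
    intro a ha
    rw [List.map_map, List.mem_map] at ha
    obtain ⟨c, _, rfl⟩ := ha
    exact (wt_cform _ c).1
  · apply List.dvd_sum
    intro a ha
    rw [List.map_map, List.mem_map] at ha
    obtain ⟨c, _, rfl⟩ := ha
    exact wt_sform _ c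

theorem wtL_ge {Q : List Con} (hQ : Q ≠ []) : 40000 ≤ wtL (allF Q) := by
  obtain ⟨c, Q', rfl⟩ := List.exists_cons_of_ne_nil hQ
  have h := (wt_cform (svars (c :: Q')) c).2
  have h1 : wt (cform (svars (c :: Q')) c) ≤ wtL (allF (c :: Q')) := by
    unfold wtL
    apply List.single_le_sum (fun _ _ => Nat.zero_le _)
    rw [List.mem_map]
    exact ⟨_, List.mem_append_left _ (List.mem_map.2 ⟨c, List.mem_cons_self, rfl⟩), rfl⟩
  omega

/-! ### Completeness -/

theorem sqs_eq_zero {x y : ℕ → ℝ} {A : List (List Atom)} (h : ∀ F ∈ A, fval x y F = 0) :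
    sqs x y A = 0 := by
  induction A with
  | nil => rfl
  | cons F A ih =>
    rw [sqs_cons, h F List.mem_cons_self, ih fun F' h' => h F' (List.mem_cons_of_mem _ h')]
    ring

theorem nsq_pos {N : ℕ} {x : ℕ → ℝ} {i : ℕ} (hi : i < N) (hx : x i ≠ 0) : 0 < nsq N x := by
  unfold nsq
  have h1 : x i ^ 2 ≤ ∑ i ∈ range N, x i ^ 2 :=
    single_le_sum (f := fun j => x j ^ 2) (fun j _ => sq_nonneg _) (mem_range.2 hi)
  have h2 : 0 < x i ^ 2 := by positivity
  linarith

theorem exceed_of_solution {Q : List Con} {w : ℕ → ℝ} (hw : ∀ i, |w i| ≤ 1 / 8)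
    (hc : ∀ c ∈ Q, c.HoldsC (1 / 8) w) {m : ℕ} (hm : m ∈ svars Q) (hwm : w m ≠ 0) :
    ∃ x : ℕ → ℝ, x 0 = 1 ∧ (∀ i, dimN Q ≤ i → x i = 0) ∧ (bound (allF Q) : ℝ) ^ 2 *
      (nsq (dimN Q) x * nsq (dimN Q) x) < sqs x x (forms (dimN Q) (allF Q) (ix (svars Q) m)) := by
  set V := svars Q with hV
  set L := V.length with hL
  let x : ℕ → ℝ := fun i => if i = 0 then 1 else if i < 1 + L then w (V.getD (i - 1) 0) else
    if i < 1 + 2 * L then √(1 - 2 * w (V.getD (i - 1 - L) 0) ^ 2) else 0
  have hx0 : x 0 = 1 := by simp [x]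
  have hx1 : ∀ p < L, x (1 + p) = w (V.getD p 0) := by
    intro p hp
    simp only [x]
    rw [if_neg (by omega), if_pos (by omega)]
    congr 2
    omega
  have hx2 : ∀ p < L, x (1 + L + p) ^ 2 = 1 - 2 * w (V.getD p 0) ^ 2 := by
    intro p hp
    simp only [x]
    rw [if_neg (by omega), if_neg (by omega), if_pos (by omega)]
    have h1 : 1 + L + p - 1 - L = p := by omega
    rw [h1, Real.sq_sqrt]
    have h2 := hw (V.getD p 0)
    have h3 : w (V.getD p 0) ^ 2 ≤ (1 / 8) ^ 2 := by
      rw [← sq_abs]
      exact pow_le_pow_left₀ (abs_nonneg _) h2 2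
    nlinarith
  have hxi : ∀ i ∈ V, x (ix V i) = w i := by
    intro i hi
    have h1 := List.idxOf_lt_length_of_mem hi
    unfold ix
    rw [hx1 _ h1, List.getD_eq_getElem _ _ h1, List.getElem_idxOf h1]
  have hN : dimN Q = 1 + 2 * L := rfl
  refine ⟨x, hx0, ?_, ?_⟩
  · intro i hi
    rw [hN] at hi
    simp only [x]
    rw [if_neg (by omega), if_neg (by omega), if_neg (by omega)]
  · rw [exceed_iff _ _ (allF_lt Q) (dvd_wtL Q)]
    have h1 : sqs x x (allF Q) = 0 := by
      apply sqs_eq_zero
      intro F hF
      rcases List.mem_append.1 hF with h | h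
      · rw [List.mem_map] at h
        obtain ⟨c, hcQ, rfl⟩ := h
        have h2 := hc c hcQ
        have h3 : ∀ i ∈ c.vars, x (ix V i) = w i := fun i hi => hxi i (mem_svars hcQ hi)
        cases c with
        | one i =>
          have e1 := h3 i (by simp [Con.vars])
          simp only [Con.HoldsC] at h2
          rw [← hV]
          simp only [cform, fval_cons, fval_nil, aval, hx0, e1, h2]
          norm_num
        | add i j k =>
          have e1 := h3 i (by simp [Con.vars])
          have e2 := h3 j (by simp [Con.vars])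
          have e3 := h3 k (by simp [Con.vars])
          simp only [Con.HoldsC] at h2
          rw [← hV]
          simp only [cform, fval_cons, fval_nil, aval, hx0, e1, e2, e3, ← h2]
          push_cast
          ring
        | mul i j k =>
          have e1 := h3 i (by simp [Con.vars])
          have e2 := h3 j (by simp [Con.vars])
          have e3 := h3 k (by simp [Con.vars])
          simp only [Con.HoldsC] at h2
          rw [← hV]
          simp only [cform, fval_cons, fval_nil, aval, hx0, e1, e2, e3, ← h2]
          push_cast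
          ring
      · rw [List.mem_map] at h
        obtain ⟨p, hp, rfl⟩ := h
        rw [List.mem_range] at hp
        have e1 := hx1 p hp
        have e2 := hx2 p hp
        rw [← hL]
        simp only [sform, fval_cons, fval_nil, aval, hx0, e1]
        have e3 : x (1 + L + p) * x (1 + L + p) = 1 - 2 * w (V.getD p 0) ^ 2 := by
          rw [← e2]; ring
        rw [e3]
        push_cast
        ring
    have h2 : nsq (dimN Q) x * nsq (dimN Q) x - dot (dimN Q) x x ^ 2 = 0 := by
      have : dot (dimN Q) x x = nsq (dimN Q) x := by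
        unfold dot nsq
        exact sum_congr rfl fun i _ => by ring
      rw [this]; ring
    rw [h1, h2, hx0, hxi m hm]
    have : 0 < (w m * 1) ^ 2 := by positivity
    linarith

/-! ### Soundness -/

theorem aval_scale (x y : ℕ → ℝ) (a b : ℝ) (e : Atom) :
    aval (fun i => x i / a) (fun i => y i / b) e = aval x y e / (a * b) := by
  simp only [aval]
  rw [div_mul_div_comm]
  ring

theorem fval_scale (x y : ℕ → ℝ) (a b : ℝ) (F : List Atom) :
    fval (fun i => x i / a) (fun i => y i / b) F = fval x y F / (a * b) := by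
  induction F with
  | nil => simp [fval]
  | cons e F ih => rw [fval_cons, fval_cons, ih, aval_scale, add_div]

theorem approx_of_exceed {Q : List Con} (hQ : Q ≠ []) {m : ℕ} (hm : m ∈ svars Q) {x y : ℕ → ℝ}
    (h : (bound (allF Q) : ℝ) ^ 2 * (nsq (dimN Q) x * nsq (dimN Q) y) <
      sqs x y (forms (dimN Q) (allF Q) (ix (svars Q) m))) :
    ∃ w : ℕ → ℝ, (∀ i ∈ svars Q, |w i| ≤ 1) ∧ ∀ c ∈ Q, |c.err w| ≤ |w m| / 50 := by
  rw [exceed_iff _ _ (allF_lt Q) (dvd_wtL Q)] at h
  set V := svars Q with hV
  set L := V.length with hL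
  set μ := ix V m with hμ
  have hμL : μ < 1 + L := by
    have := List.idxOf_lt_length_of_mem hm
    rw [hμ]; unfold ix; omega
  have hμ1 : 1 ≤ μ := by rw [hμ]; unfold ix; omega
  have hN : dimN Q = 1 + 2 * L := rfl
  set E := |x μ * y 0| with hE
  have hE2 : (x μ * y 0) ^ 2 = E ^ 2 := (sq_abs _).symm
  rw [hE2] at h
  have hWn : ((40000 : ℕ) : ℝ) ≤ wtL (allF Q) := Nat.cast_le.2 (wtL_ge hQ)
  have hW : (9999 : ℝ) ≤ (wtL (allF Q) : ℝ) / 4 - 1 := by
    push_cast at hWn
    linarith
  have hlag : 0 ≤ nsq (dimN Q) x * nsq (dimN Q) y - dot (dimN Q) x y ^ 2 := by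
    have := wedge_le (dimN Q) x y (i := 0) (j := 0) (by rw [hN]; omega) (by rw [hN]; omega)
    nlinarith [sq_nonneg (x 0 * y 0 - x 0 * y 0)]
  have hs := sqs_nonneg x y (allF Q)
  have hg : 0 ≤ ((wtL (allF Q) : ℝ) / 4 - 1) ^ 2 *
      (nsq (dimN Q) x * nsq (dimN Q) y - dot (dimN Q) x y ^ 2) := by positivity
  have hEpos : 0 < E := by
    have h1 : 0 < E ^ 2 := by linarith
    have h2 : 0 ≤ E := abs_nonneg _
    nlinarith
  -- the forms
  have hF : ∀ F ∈ allF Q, |fval x y F| ≤ E := by
    intro F hF
    have h1 := mem_sqs_le (x := x) (y := y) hF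
    apply abs_le_of_sq_le_sq _ hEpos.le
    nlinarith
  -- the wedges
  have hwed : ∀ i j, i < dimN Q → j < dimN Q → |x i * y j - x j * y i| ≤ E / 100 := by
    intro i j hi hj
    have h1 := wedge_le (dimN Q) x y hi hj
    apply abs_le_of_sq_le_sq _ (by positivity)
    have h2 : (9999 : ℝ) ^ 2 * (nsq (dimN Q) x * nsq (dimN Q) y - dot (dimN Q) x y ^ 2) ≤
        ((wtL (allF Q) : ℝ) / 4 - 1) ^ 2 *
          (nsq (dimN Q) x * nsq (dimN Q) y - dot (dimN Q) x y ^ 2) :=
      mul_le_mul_of_nonneg_right (pow_le_pow_left₀ (by norm_num) hW 2) hlag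
    nlinarith
  have hy0 : y 0 ≠ 0 := by
    intro h0
    rw [hE, h0, mul_zero, abs_zero] at hEpos
    exact lt_irrefl _ hEpos
  have hx0 : x 0 ≠ 0 := by
    intro h0
    have h1 := hwed μ 0 (by rw [hN]; omega) (by rw [hN]; omega)
    rw [h0, zero_mul, sub_zero, ← hE] at h1
    linarith
  set u : ℕ → ℝ := fun i => x i / x 0 with hu
  set v : ℕ → ℝ := fun i => y i / y 0 with hv
  have hu0 : u 0 = 1 := div_self hx0
  have hv0 : v 0 = 1 := div_self hy0
  set a := |u μ| with ha
  have hpos : 0 < |x 0 * y 0| := abs_pos.2 (mul_ne_zero hx0 hy0)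
  have haE : a = E / |x 0 * y 0| := by
    rw [ha, hE, hu]
    simp only
    rw [abs_div, abs_mul, abs_mul]
    field_simp
  have ha0 : 0 ≤ a := abs_nonneg _
  have hF' : ∀ F ∈ allF Q, |fval u v F| ≤ a := by
    intro F hFQ
    rw [hu, hv, fval_scale, abs_div, haE]
    exact div_le_div_of_nonneg_right (hF F hFQ) hpos.le
  have huv : ∀ i, i < dimN Q → |u i - v i| ≤ a / 100 := by
    intro i hi
    have h1 := hwed i 0 hi (by rw [hN]; omega)
    have h2 : u i - v i = (x i * y 0 - x 0 * y i) / (x 0 * y 0) := by
      rw [hu, hv]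
      field_simp
    rw [h2, abs_div, haE, div_div, mul_comm |x 0 * y 0| 100, ← div_div]
    exact div_le_div_of_nonneg_right h1 hpos.le
  have hsl : ∀ p < L, 2 * u (1 + p) ^ 2 ≤ 1 + a / 100 + 2 * (a / 100) * |u (1 + p)| + (a / 100) ^ 2 := by
    intro p hp
    have h1 := hF' (sform L p) (by
      unfold allF
      exact List.mem_append_right _ (List.mem_map.2 ⟨p, List.mem_range.2 hp, rfl⟩))
    simp only [sform, fval_cons, fval_nil, aval, hu0, hv0] at h1
    push_cast at h1
    have h2 := huv (1 + p) (by rw [hN]; omega)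
    have h3 := huv (1 + L + p) (by rw [hN]; omega)
    set P := u (1 + p)
    set P' := v (1 + p)
    set R := u (1 + L + p)
    set R' := v (1 + L + p)
    rw [abs_le] at h1 h2 h3
    have h4 : P ^ 2 - a / 100 * |P| ≤ P * P' := by
      have : P * (P - P') ≤ |P| * (a / 100) := by
        calc P * (P - P') ≤ |P * (P - P')| := le_abs_self _
          _ = |P| * |P - P'| := abs_mul _ _
          _ ≤ |P| * (a / 100) := mul_le_mul_of_nonneg_left (abs_le.2 h2) (abs_nonneg _)
      nlinarith
    have h5 : -(a / 100) ^ 2 ≤ R * R' := by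
      nlinarith [sq_nonneg (R + R'), sq_nonneg (R - R'), h3.1, h3.2]
    linarith [h1.2, h4, h5]
  have ha1 : a ≤ 1 := by
    by_contra hcon
    push Not at hcon
    have h1 := hsl (μ - 1) (by omega)
    have h2 : 1 + (μ - 1) = μ := by omega
    rw [h2, ← ha, ← sq_abs (u μ), ← ha] at h1
    nlinarith
  have hall : ∀ p < L, |u (1 + p)| ≤ 1 := by
    intro p hp
    by_contra hcon
    push Not at hcon
    have h1 := hsl p hp
    rw [← sq_abs] at h1
    nlinarith
  refine ⟨fun i => u (ix V i), ?_, ?_⟩
  · intro i hi
    have := List.idxOf_lt_length_of_mem hi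
    exact hall _ this
  · intro c hc
    have hwm : |u (ix V m)| = a := rfl
    simp only [hwm]
    have h1 := hF' (cform V c) (by
      unfold allF
      exact List.mem_append_left _ (List.mem_map.2 ⟨c, hc, rfl⟩))
    cases c with
    | one i =>
      simp only [cform, fval_cons, fval_nil, aval, hu0, hv0] at h1
      push_cast at h1
      simp only [Con.err]
      rw [abs_le] at h1 ⊢
      constructor <;> linarith
    | add i j k =>
      simp only [cform, fval_cons, fval_nil, aval, hv0] at h1
      push_cast at h1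
      simp only [Con.err]
      rw [abs_le] at h1 ⊢
      constructor <;> linarith
    | mul i j k =>
      simp only [cform, fval_cons, fval_nil, aval, hv0] at h1
      push_cast at h1
      simp only [Con.err]
      have hi : i ∈ V := mem_svars hc (by simp [Con.vars])
      have hj : j ∈ V := mem_svars hc (by simp [Con.vars])
      have h2 : |u (ix V i)| ≤ 1 := hall _ (List.idxOf_lt_length_of_mem hi)
      have h3 : |u (ix V j) - v (ix V j)| ≤ a / 100 := huv _ (by
        have := List.idxOf_lt_length_of_mem hj
        rw [hN]; unfold ix; omega)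
      have h4 : |u (ix V i) * (u (ix V j) - v (ix V j))| ≤ a / 100 := by
        rw [abs_mul]
        nlinarith [abs_nonneg (u (ix V j) - v (ix V j)), abs_nonneg (u (ix V i))]
      rw [abs_le] at h1 h4 ⊢
      constructor <;> nlinarith

/-! ### The reduction at the level of bilinear forms -/

/-- The name of the last variable of the chain. -/
def lastV (S : List Con) : ℕ := ev (chM S)

theorem lastV_mem (S : List Con) : lastV S ∈ svars (qsys S) := by
  have h0 : chM S = (chM S - 1) + 1 := by unfold chM gapK; omega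
  refine mem_svars (c := Con.mul (ev (chM S - 1)) (ev (chM S - 1)) (ev (chM S - 1 + 1))) ?_ ?_
  · exact List.mem_append_right _ (List.mem_map.2 ⟨chM S - 1, List.mem_range.2 (by omega), rfl⟩)
  · rw [← h0]
    simp [Con.vars, lastV]

/-- The forms of a system of constraints over the reals. -/
def bforms (S : List Con) : List (List Atom) :=
  forms (dimN (qsys S)) (allF (qsys S)) (ix (svars (qsys S)) (lastV S))

/-- The bound of a system. -/
def bbound (S : List Con) : ℕ := bound (allF (qsys S))

/-- The number of coordinates used by the forms of a system. -/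
def bdim (S : List Con) : ℕ := dimN (qsys S)

theorem sat_iff_exceed (S : List Con) :
    (Sat S → ∃ x : ℕ → ℝ, x 0 = 1 ∧ (∀ i, bdim S ≤ i → x i = 0) ∧
      (bbound S : ℝ) ^ 2 * (nsq (bdim S) x * nsq (bdim S) x) < sqs x x (bforms S)) ∧
    ((∃ x y : ℕ → ℝ, (bbound S : ℝ) ^ 2 * (nsq (bdim S) x * nsq (bdim S) y) <
      sqs x y (bforms S)) → Sat S) := by
  constructor
  · intro h
    obtain ⟨w, h1, h2, h3⟩ := qsys_of_sat h
    exact exceed_of_solution h1 h2 (lastV_mem S) (h3 _).ne'
  · rintro ⟨x, y, h⟩
    have hQ : qsys S ≠ [] := by simp [qsys, bsys]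
    obtain ⟨w, h1, h2⟩ := approx_of_exceed hQ (lastV_mem S) h
    exact sat_of_approx h1 h2

end Pool.Agent.NPC.ER.H255SN
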