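import Pool.Agent.H255R3.SN.Sys

/-!
# The spectral norm of 3-tensors
-/

set_option autoImplicit false

namespace Pool.Agent.NPC.ER.H255SN

open Finset

/-- The value `T(x, y, z) = ∑ t_{ijk} x_i y_j z_k` of a real 3-tensor. -/
noncomputable def tri {d : ℕ} (t : Fin d → Fin d → Fin d → ℝ)
    (x y z : EuclideanSpace ℝ (Fin d)) : ℝ :=
  ∑ i, ∑ j, ∑ k, t i j k * x i * y j * z k

/-- The spectral norm of a real 3-tensor: the maximum of `|T(x, y, z)|` over all unit vectors
`x, y, z`. -/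
noncomputable def specNorm {d : ℕ} (t : Fin d → Fin d → Fin d → ℝ) : ℝ :=
  sSup {r | ∃ x y z : EuclideanSpace ℝ (Fin d), ‖x‖ = 1 ∧ ‖y‖ = 1 ∧ ‖z‖ = 1 ∧ r = |tri t x y z|}

theorem abs_coord_le {d : ℕ} {x : EuclideanSpace ℝ (Fin d)} (hx : ‖x‖ = 1) (i : Fin d) :
    |x i| ≤ 1 := by
  have h := PiLp.norm_apply_le x i
  rw [hx] at h
  exact h

theorem abs_tri_le {d : ℕ} (t : Fin d → Fin d → Fin d → ℝ) {x y z : EuclideanSpace ℝ (Fin d)}
    (hx : ‖x‖ = 1) (hy : ‖y‖ = 1) (hz : ‖z‖ = 1) : |tri t x y z| ≤ ∑ i, ∑ j, ∑ k, |t i j k| := by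
  unfold tri
  refine (abs_sum_le_sum_abs _ _).trans (sum_le_sum fun i _ => ?_)
  refine (abs_sum_le_sum_abs _ _).trans (sum_le_sum fun j _ => ?_)
  refine (abs_sum_le_sum_abs _ _).trans (sum_le_sum fun k _ => ?_)
  rw [abs_mul, abs_mul, abs_mul]
  have h1 := abs_coord_le hx i
  have h2 := abs_coord_le hy j
  have h3 := abs_coord_le hz k
  calc |t i j k| * |x i| * |y j| * |z k| ≤ |t i j k| * 1 * 1 * 1 := by gcongr
    _ = _ := by ring

theorem bddAbove_tri {d : ℕ} (t : Fin d → Fin d → Fin d → ℝ) :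
    BddAbove {r | ∃ x y z : EuclideanSpace ℝ (Fin d),
      ‖x‖ = 1 ∧ ‖y‖ = 1 ∧ ‖z‖ = 1 ∧ r = |tri t x y z|} := by
  refine ⟨∑ i, ∑ j, ∑ k, |t i j k|, ?_⟩
  rintro r ⟨x, y, z, hx, hy, hz, rfl⟩
  exact abs_tri_le t hx hy hz

theorem exists_unit {d : ℕ} (hd : 0 < d) : ∃ x : EuclideanSpace ℝ (Fin d), ‖x‖ = 1 :=
  ⟨EuclideanSpace.single ⟨0, hd⟩ 1, by simp⟩

theorem lt_specNorm_iff {d : ℕ} (hd : 0 < d) (t : Fin d → Fin d → Fin d → ℝ) (s : ℝ) :
    s < specNorm t ↔ ∃ x y z : EuclideanSpace ℝ (Fin d),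
      ‖x‖ = 1 ∧ ‖y‖ = 1 ∧ ‖z‖ = 1 ∧ s < |tri t x y z| := by
  obtain ⟨u, hu⟩ := exists_unit hd
  unfold specNorm
  rw [lt_csSup_iff (bddAbove_tri t) ⟨_, u, u, u, hu, hu, hu, rfl⟩]
  constructor
  · rintro ⟨r, ⟨x, y, z, hx, hy, hz, rfl⟩, h⟩
    exact ⟨x, y, z, hx, hy, hz, h⟩
  · rintro ⟨x, y, z, hx, hy, hz, h⟩
    exact ⟨_, ⟨x, y, z, hx, hy, hz, rfl⟩, h⟩

/-- The spectral norm is attained. -/
theorem specNorm_isGreatest {d : ℕ} (hd : 0 < d) (t : Fin d → Fin d → Fin d → ℝ) :
    IsGreatest {r | ∃ x y z : EuclideanSpace ℝ (Fin d),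
      ‖x‖ = 1 ∧ ‖y‖ = 1 ∧ ‖z‖ = 1 ∧ r = |tri t x y z|} (specNorm t) := by
  have hS : IsCompact (Metric.sphere (0 : EuclideanSpace ℝ (Fin d)) 1) := isCompact_sphere _ _
  have hcont : Continuous (fun p : EuclideanSpace ℝ (Fin d) × EuclideanSpace ℝ (Fin d) ×
      EuclideanSpace ℝ (Fin d) => |tri t p.1 p.2.1 p.2.2|) := by
    unfold tri
    fun_prop
  have hK := (hS.prod (hS.prod hS)).image hcont
  have heq : {r | ∃ x y z : EuclideanSpace ℝ (Fin d),
      ‖x‖ = 1 ∧ ‖y‖ = 1 ∧ ‖z‖ = 1 ∧ r = |tri t x y z|} =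
      (fun p : EuclideanSpace ℝ (Fin d) × EuclideanSpace ℝ (Fin d) ×
      EuclideanSpace ℝ (Fin d) => |tri t p.1 p.2.1 p.2.2|) '' (Metric.sphere 0 1 ×ˢ
        (Metric.sphere 0 1 ×ˢ Metric.sphere 0 1)) := by
    ext r
    simp only [Set.mem_ofPred_eq, Set.mem_image, Set.mem_prod, mem_sphere_iff_norm, sub_zero,
      Prod.exists]
    constructor
    · rintro ⟨x, y, z, hx, hy, hz, rfl⟩
      exact ⟨x, y, z, ⟨hx, hy, hz⟩, rfl⟩
    · rintro ⟨x, y, z, ⟨hx, hy, hz⟩, rfl⟩
      exact ⟨x, y, z, hx, hy, hz, rfl⟩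
  obtain ⟨u, hu⟩ := exists_unit hd
  refine ⟨?_, ?_⟩
  · unfold specNorm
    rw [heq]
    apply hK.sSup_mem
    rw [← heq]
    exact ⟨_, u, u, u, hu, hu, hu, rfl⟩
  · exact fun r hr => le_csSup (bddAbove_tri t) hr

/-- The bilinear forms of a tensor. -/
noncomputable def slice {d : ℕ} (t : Fin d → Fin d → Fin d → ℝ) (k : Fin d) (x y : Fin d → ℝ) : ℝ :=
  ∑ i, ∑ j, t k i j * x i * y j

theorem tri_eq {d : ℕ} (t : Fin d → Fin d → Fin d → ℝ) (z x y : EuclideanSpace ℝ (Fin d)) :
    tri t z x y = ∑ k, z k * slice t k x y := by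
  unfold tri slice
  refine sum_congr rfl fun k _ => ?_
  rw [mul_sum]
  refine sum_congr rfl fun i _ => ?_
  rw [mul_sum]
  refine sum_congr rfl fun j _ => ?_
  ring

theorem exists_tri_iff {d : ℕ} (t : Fin d → Fin d → Fin d → ℝ) {s : ℝ} (hs : 0 ≤ s) :
    (∃ z x y : EuclideanSpace ℝ (Fin d), ‖z‖ = 1 ∧ ‖x‖ = 1 ∧ ‖y‖ = 1 ∧ s < |tri t z x y|) ↔
    ∃ x y : EuclideanSpace ℝ (Fin d), ‖x‖ = 1 ∧ ‖y‖ = 1 ∧ s ^ 2 < ∑ k, slice t k x y ^ 2 := by
  constructor
  · rintro ⟨z, x, y, hz, hx, hy, h⟩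
    refine ⟨x, y, hx, hy, ?_⟩
    have h1 : (tri t z x y) ^ 2 ≤ (∑ k, z k ^ 2) * ∑ k, slice t k x y ^ 2 := by
      rw [tri_eq]
      exact sum_mul_sq_le_sq_mul_sq _ _ _
    have h2 : ∑ k, z k ^ 2 = 1 := by
      rw [← EuclideanSpace.real_norm_sq_eq, hz]; norm_num
    rw [h2, one_mul] at h1
    have h3 : s ^ 2 < (tri t z x y) ^ 2 := by
      rw [← sq_abs (tri t z x y)]
      exact pow_lt_pow_left₀ h hs (by norm_num)
    linarith
  · rintro ⟨x, y, hx, hy, h⟩
    set R := √(∑ k, slice t k x y ^ 2) with hR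
    have hsum : 0 ≤ ∑ k, slice t k x y ^ 2 := sum_nonneg fun k _ => sq_nonneg _
    have hR2 : R ^ 2 = ∑ k, slice t k x y ^ 2 := Real.sq_sqrt hsum
    have hRs : s < R := by
      rw [hR]
      exact Real.lt_sqrt_of_sq_lt h
    have hR0 : 0 < R := lt_of_le_of_lt hs hRs
    refine ⟨WithLp.toLp 2 (fun k => slice t k x y / R), x, y, ?_, hx, hy, ?_⟩
    · have h1 : ‖(WithLp.toLp 2 (fun k => slice t k x y / R) : EuclideanSpace ℝ (Fin d))‖ ^ 2 = 1 := by
        rw [EuclideanSpace.real_norm_sq_eq]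
        simp only [div_pow]
        rw [← sum_div, ← hR2, div_self (by positivity)]
      have h2 := norm_nonneg (WithLp.toLp 2 (fun k => slice t k x y / R) : EuclideanSpace ℝ (Fin d))
      nlinarith
    · rw [tri_eq]
      simp only
      have h1 : ∑ k, slice t k x y / R * slice t k x y = R := by
        have : ∀ k, slice t k x y / R * slice t k x y = slice t k x y ^ 2 / R := fun k => by ring
        simp only [this]
        rw [← sum_div, ← hR2]
        field_simp
      rw [h1]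
      exact hRs.trans_le (le_abs_self _)

/-! ### The tensor of a list of bilinear forms -/

/-- The positive part of a coefficient. -/
def posS (F : List Atom) (i j : ℕ) : ℕ :=
  (F.map (fun e => if e.2 = (i, j) ∧ ¬ e.1 < 0 then e.1.natAbs else 0)).sum

/-- The negative part of a coefficient. -/
def negS (F : List Atom) (i j : ℕ) : ℕ :=
  (F.map (fun e => if e.2 = (i, j) ∧ e.1 < 0 then e.1.natAbs else 0)).sum

/-- A coefficient of a bilinear form. -/
def coef (F : List Atom) (i j : ℕ) : ℤ := (posS F i j : ℤ) - (negS F i j : ℤ)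

theorem coef_cons (e : Atom) (F : List Atom) (i j : ℕ) :
    coef (e :: F) i j = (if e.2 = (i, j) then e.1 else 0) + coef F i j := by
  unfold coef posS negS
  simp only [List.map_cons, List.sum_cons]
  by_cases h : e.2 = (i, j)
  · by_cases h2 : e.1 < 0
    · simp only [h, h2, not_true_eq_false, and_false, and_self, if_false, if_true]
      push_cast
      rw [abs_of_neg h2]
      ring
    · simp only [h, h2, not_false_eq_true, and_self, and_false, if_false, if_true]
      push_cast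
      rw [abs_of_nonneg (by omega)]
      ring
  · simp [h]

theorem sum_coef (d : ℕ) (F : List Atom) (hF : ∀ e ∈ F, e.2.1 < d ∧ e.2.2 < d) (x y : ℕ → ℝ) :
    ∑ i ∈ range d, ∑ j ∈ range d, (coef F i j : ℝ) * x i * y j = fval x y F := by
  induction F with
  | nil => simp [coef, posS, negS, fval]
  | cons e F ih =>
    have h1 := ih fun e' h => hF e' (List.mem_cons_of_mem _ h)
    obtain ⟨h2, h3⟩ := hF e List.mem_cons_self
    rw [fval_cons, ← h1]
    simp only [coef_cons, Int.cast_add, add_mul, sum_add_distrib]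
    congr 1
    have h4 : ∀ i j : ℕ, (((if e.2 = (i, j) then e.1 else 0 : ℤ) : ℝ)) * x i * y j =
        if e.2.1 = i then (if e.2.2 = j then (e.1 : ℝ) * (x i * y j) else 0) else 0 := by
      intro i j
      by_cases h5 : e.2.1 = i
      · by_cases h6 : e.2.2 = j
        · have : e.2 = (i, j) := Prod.ext h5 h6
          simp [this, mul_assoc]
        · have : e.2 ≠ (i, j) := fun h => h6 (congrArg Prod.snd h)
          simp [this, h6]
      · have : e.2 ≠ (i, j) := fun h => h5 (congrArg Prod.fst h)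
        simp [this, h5]
    simp only [h4]
    have h5 : ∀ i : ℕ, ∑ j ∈ range d, (if e.2.1 = i then (if e.2.2 = j then (e.1 : ℝ) * (x i * y j)
        else 0) else 0) = if e.2.1 = i then (e.1 : ℝ) * (x i * y e.2.2) else 0 := by
      intro i
      by_cases h6 : e.2.1 = i
      · simp only [h6, if_true]
        rw [sum_ite_eq, if_pos (mem_range.2 h3)]
      · simp [h6]
    simp only [h5]
    rw [sum_ite_eq, if_pos (mem_range.2 h2)]
    rfl

/-- The tensor of a list of bilinear forms, as nested lists. -/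
def tens (d : ℕ) (B : List (List Atom)) : List (List (List ℚ)) :=
  (List.range d).map fun k => (List.range d).map fun i => (List.range d).map fun j =>
    ((coef (B.getD k []) i j : ℤ) : ℚ)

theorem sum_getD_sq (d : ℕ) (B : List (List Atom)) (hB : B.length ≤ d) (x y : ℕ → ℝ) :
    ∑ k ∈ range d, fval x y (B.getD k []) ^ 2 = sqs x y B := by
  induction B generalizing d with
  | nil => simp [sqs, fval]
  | cons F B ih =>
    cases d with
    | zero => simp at hB
    | succ d =>
      rw [sum_range_succ', sqs_cons]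
      have h1 := ih d (by simpa using hB)
      simp only [List.getD_cons_succ, List.getD_cons_zero]
      rw [h1]
      ring

/-- Extension of a vector by zeros. -/
noncomputable def extz {d : ℕ} (x : Fin d → ℝ) : ℕ → ℝ := fun i => if h : i < d then x ⟨i, h⟩ else 0

theorem extz_coe {d : ℕ} (x : Fin d → ℝ) (i : Fin d) : extz x i = x i := by
  simp [extz]

/-- An instance of the problem: the dimension `d`, the tensor as nested lists of rational numbers,
and a rational number. -/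
abbrev Inst : Type := ℕ × List (List (List ℚ)) × ℚ

/-- Well-formed instances: `d` is positive, the tensor has dimensions `d`, `d`, `d` and the bound
is positive. -/
def Inst.WF (p : Inst) : Prop :=
  1 ≤ p.1 ∧ p.2.1.length = p.1 ∧ (∀ A ∈ p.2.1, A.length = p.1 ∧ ∀ r ∈ A, r.length = p.1) ∧ 0 < p.2.2

/-- The real `d × d × d` tensor given by nested lists of rational numbers. -/
noncomputable def tensorOf (d : ℕ) (T : List (List (List ℚ))) : Fin d → Fin d → Fin d → ℝ :=
  fun i j k => ((((T.getD i []).getD j []).getD k 0 : ℚ) : ℝ)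

/-- The instance of a list of bilinear forms and a number. -/
def instOf (d : ℕ) (B : List (List Atom)) (s : ℕ) : Inst := (d, tens d B, (s : ℚ))

theorem instOf_wf {d : ℕ} (hd : 1 ≤ d) (B : List (List Atom)) {s : ℕ} (hs : 0 < s) :
    Inst.WF (instOf d B s) := by
  refine ⟨hd, by simp [instOf, tens], ?_, by simp only [instOf]; exact_mod_cast hs⟩
  intro A hA
  simp only [instOf, tens, List.mem_map, List.mem_range] at hA
  obtain ⟨k, _, rfl⟩ := hA
  refine ⟨by simp [instOf], ?_⟩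
  intro r hr
  rw [List.mem_map] at hr
  obtain ⟨i, _, rfl⟩ := hr
  simp [instOf]

theorem instOf_tensor (d : ℕ) (B : List (List Atom)) (k i j : Fin d) :
    tensorOf d (tens d B) k i j = (coef (B.getD k []) i j : ℝ) := by
  have h1 : (tens d B).getD k [] = (List.range d).map fun i => (List.range d).map fun j =>
      ((coef (B.getD k []) i j : ℤ) : ℚ) := by
    unfold tens
    rw [List.getD_eq_getElem _ _ (by simp), List.getElem_map, List.getElem_range]
  have h2 : ((List.range d).map fun i => (List.range d).map fun j =>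
      ((coef (B.getD k []) i j : ℤ) : ℚ)).getD i [] = (List.range d).map fun j =>
      ((coef (B.getD k []) i j : ℤ) : ℚ) := by
    rw [List.getD_eq_getElem _ _ (by simp), List.getElem_map, List.getElem_range]
  have h3 : ((List.range d).map fun j => ((coef (B.getD k []) i j : ℤ) : ℚ)).getD j 0 =
      ((coef (B.getD k []) i j : ℤ) : ℚ) := by
    rw [List.getD_eq_getElem _ _ (by simp), List.getElem_map, List.getElem_range]
  unfold tensorOf
  rw [h1, h2, h3]
  simp

theorem slice_instOf {d : ℕ} {B : List (List Atom)} (hB : ∀ F ∈ B, ∀ e ∈ F, e.2.1 < d ∧ e.2.2 < d)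
    (k : Fin d) (x y : Fin d → ℝ) :
    slice (tensorOf d (tens d B)) k x y = fval (extz x) (extz y) (B.getD k []) := by
  have hF : ∀ e ∈ B.getD k [], e.2.1 < d ∧ e.2.2 < d := by
    intro e he
    by_cases h : (k : ℕ) < B.length
    · rw [List.getD_eq_getElem _ _ h] at he
      exact hB _ (List.getElem_mem h) e he
    · rw [List.getD_eq_default _ _ (by omega)] at he
      simp at he
  rw [← sum_coef d _ hF]
  unfold slice
  rw [← Fin.sum_univ_eq_sum_range (fun i => ∑ j ∈ range d, (coef (B.getD k []) i j : ℝ) *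
    extz x i * extz y j) d]
  refine sum_congr rfl fun i _ => ?_
  rw [← Fin.sum_univ_eq_sum_range (fun j => (coef (B.getD k []) i j : ℝ) *
    extz x i * extz y j) d]
  refine sum_congr rfl fun j _ => ?_
  rw [extz_coe, extz_coe]
  rw [instOf_tensor d B k i j]

theorem sum_slice_instOf {d : ℕ} {B : List (List Atom)}
    (hB : ∀ F ∈ B, ∀ e ∈ F, e.2.1 < d ∧ e.2.2 < d) (hl : B.length ≤ d) (x y : Fin d → ℝ) :
    ∑ k, slice (tensorOf d (tens d B)) k x y ^ 2 = sqs (extz x) (extz y) B := by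
  rw [← sum_getD_sq d B hl, ← Fin.sum_univ_eq_sum_range
    (fun k => fval (extz x) (extz y) (B.getD k []) ^ 2) d]
  refine sum_congr rfl fun k _ => ?_
  rw [slice_instOf hB k x y]

theorem nsq_extz_le {d N : ℕ} (h : N ≤ d) (x : Fin d → ℝ) :
    nsq N (extz x) ≤ ∑ i, x i ^ 2 := by
  have h1 : ∑ i, x i ^ 2 = nsq d (extz x) := by
    unfold nsq
    rw [← Fin.sum_univ_eq_sum_range (fun i => extz x i ^ 2) d]
    exact sum_congr rfl fun i _ => by rw [extz_coe]
  rw [h1]
  unfold nsq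
  exact sum_le_sum_of_subset_of_nonneg (range_subset_range.2 h) fun _ _ _ => sq_nonneg _

theorem sqs_scale (x y : ℕ → ℝ) (a b : ℝ) (B : List (List Atom)) :
    sqs (fun i => x i / a) (fun i => y i / b) B = sqs x y B / (a * b) ^ 2 := by
  induction B with
  | nil => simp [sqs]
  | cons F B ih => rw [sqs_cons, sqs_cons, ih, fval_scale, div_pow, add_div]

theorem nsq_eq_of_zero {N d : ℕ} (h : N ≤ d) {x : ℕ → ℝ} (hx : ∀ i, N ≤ i → x i = 0) :
    nsq d x = nsq N x := by
  unfold nsq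
  symm
  apply sum_subset (range_subset_range.2 h)
  intro i _ hi
  rw [mem_range, not_lt] at hi
  rw [hx i hi]
  norm_num

/-- The spectral norm of the tensor of a list of bilinear forms. -/
theorem exceed_of_forms {N d : ℕ} {B : List (List Atom)} {s : ℕ} (hd : 1 ≤ d) (hN : N ≤ d)
    (hB : ∀ F ∈ B, ∀ e ∈ F, e.2.1 < d ∧ e.2.2 < d) (hl : B.length ≤ d) :
    ((s : ℝ) < specNorm (tensorOf d (tens d B)) → ∃ x y : ℕ → ℝ,
      (s : ℝ) ^ 2 * (nsq N x * nsq N y) < sqs x y B) ∧
    ((∃ x : ℕ → ℝ, 0 < nsq N x ∧ (∀ i, N ≤ i → x i = 0) ∧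
      (s : ℝ) ^ 2 * (nsq N x * nsq N x) < sqs x x B) →
        (s : ℝ) < specNorm (tensorOf d (tens d B))) := by
  have key := lt_specNorm_iff (d := d) hd (tensorOf d (tens d B)) (s : ℝ)
  have key2 := exists_tri_iff (d := d) (tensorOf d (tens d B)) (Nat.cast_nonneg s)
  constructor
  · intro h
    obtain ⟨x, y, hx, hy, h1⟩ := key2.1 (key.1 h)
    refine ⟨extz x, extz y, ?_⟩
    have h2 := sum_slice_instOf hB hl x y
    have h1' : (s : ℝ) ^ 2 < sqs (extz x) (extz y) B := by
      rw [← h2]; exact h1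
    have h3 : nsq N (extz x) ≤ 1 := by
      refine (nsq_extz_le hN x).trans ?_
      rw [← EuclideanSpace.real_norm_sq_eq, hx]; norm_num
    have h4 : nsq N (extz y) ≤ 1 := by
      refine (nsq_extz_le hN y).trans ?_
      rw [← EuclideanSpace.real_norm_sq_eq, hy]; norm_num
    have h5 : 0 ≤ nsq N (extz x) := sum_nonneg fun _ _ => sq_nonneg _
    have h6 : 0 ≤ nsq N (extz y) := sum_nonneg fun _ _ => sq_nonneg _
    have h7 : nsq N (extz x) * nsq N (extz y) ≤ 1 := by nlinarith
    have h8 : 0 ≤ (s : ℝ) ^ 2 := sq_nonneg _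
    nlinarith
  · rintro ⟨x, hx0, hx, h⟩
    apply key.2
    apply key2.2
    set R := √(nsq N x) with hR
    have hR2 : R ^ 2 = nsq N x := Real.sq_sqrt hx0.le
    have hRpos : 0 < R := Real.sqrt_pos.2 hx0
    let u : EuclideanSpace ℝ (Fin d) := WithLp.toLp 2 (fun i : Fin d => x i / R)
    have hu : ‖u‖ = 1 := by
      have h1 : ‖u‖ ^ 2 = 1 := by
        rw [EuclideanSpace.real_norm_sq_eq]
        have : ∀ i : Fin d, u i ^ 2 = (fun i : ℕ => (x i / R) ^ 2) i := fun i => rfl
        simp only [this]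
        rw [Fin.sum_univ_eq_sum_range (fun i : ℕ => (x i / R) ^ 2) d]
        simp only [div_pow]
        rw [← sum_div]
        have h2 : ∑ i ∈ range d, x i ^ 2 = nsq N x := nsq_eq_of_zero hN hx
        rw [h2, hR2, div_self hx0.ne']
      have h2 := norm_nonneg u
      nlinarith
    refine ⟨u, u, hu, hu, ?_⟩
    have h2 : ∑ k, slice (tensorOf d (tens d B)) k u u ^ 2 = sqs (extz u) (extz u) B :=
      sum_slice_instOf hB hl u u
    have h3 : extz u = fun i => x i / R := by
      funext i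
      unfold extz
      split_ifs with hi
      · rfl
      · rw [hx i (by omega), zero_div]
    have h4 : (s : ℝ) ^ 2 < sqs (extz u) (extz u) B := by
      rw [h3, sqs_scale, lt_div_iff₀ (by positivity)]
      have h5 : (R * R) ^ 2 = nsq N x * nsq N x := by rw [← hR2]; ring
      rw [h5]
      exact h
    rw [← h2] at h4
    exact h4

end Pool.Agent.NPC.ER.H255SN
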